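import Pool.Agent.Helper83.E2.Loc1
import Pool.Agent.Helper83.ET.Loc

/-!
# The local sets `Th`, `T` of the units (phase 2)
-/

namespace Pool.Agent.Helper83.E2

open Finset Pool.Agent.ETS Pool.Agent.ETS.RC Pool.Agent.Helper83.ET Pool.Agent.Helper5.ETP
open Pool.Agent.Helper41.ETPP

/-- **Theta** for the block length `W = C ^ e`. -/
theorem exists_Theta' {C e : ℕ} (hC : 2 ^ 20 ≤ C) (h2C : 2 ∣ C) (he : 20 ≤ e) (Q : Finset (Finset ℕ))
    (hQU : Q.card ≤ 2 ^ (200 * C ^ (e + 1))) (hQc : ∀ q ∈ Q, q.card ≤ 2 ^ (C ^ e / 2 + 8)) :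
    ∃ Th : Finset ℕ, (∀ t ∈ Th, t < 2 ^ (C ^ e)) ∧
      (∀ s, ((Th ×ˢ Th).filter (fun q => (q.1 + q.2) % 2 ^ (C ^ e) = s)).card ≤ 2) ∧
      (∀ q ∈ Q, (Th.filter (fun t => t ∈ q)).card < 2 ^ (C ^ (e - 5) / (e + 1))) ∧
      (VZ (C ^ e)).card ≤ 4 ^ (C ^ 13 * (e + 1) ^ 2) * Th.card ∧
      Th.card ≤ 2 ^ (C ^ e / 2) ∧
      (∀ k r, (Th.filter (fun t => t % 2 ^ k = r)).card ≤ 2 ^ (C ^ e / 2 - k)) := by
  have hC0 : 0 < C := by
    have : 0 < 2 ^ 20 := by positivity
    omega
  have hCn : 1048576 ≤ C := by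
    have : (2 : ℕ) ^ 20 = 1048576 := by norm_num
    omega
  set E := C ^ (e - 5) / (e + 1) with hE
  set K := C ^ 7 * (e + 1) with hK
  set w := E / (K + 2) with hw
  have hcube := cube_le hC he
  -- basic facts: `D = C ^ (e - 18)`
  set D := C ^ (e - 18) with hD
  have hCe5 : C ^ (e - 5) = C ^ 13 * D := by
    rw [hD, ← pow_add]
    congr 1
    omega
  have hCe : C ^ e = C ^ 5 * C ^ (e - 5) := by
    rw [← pow_add]
    congr 1
    omega
  have hE1 : C ^ (e - 5) < E * (e + 1) + (e + 1) := by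
    have := Nat.lt_div_mul_add (a := C ^ (e - 5)) (show 0 < e + 1 by omega)
    rwa [← hE] at this
  have hE2 : E * (e + 1) ≤ C ^ (e - 5) := Nat.div_mul_le_self _ _
  have hw1 : E < w * (K + 2) + (K + 2) := by
    have := Nat.lt_div_mul_add (a := E) (show 0 < K + 2 by omega)
    rwa [← hw] at this
  have hw2 : w * (K + 2) ≤ E := Nat.div_mul_le_self _ _
  have he1 : 1 ≤ e + 1 := by omega
  -- `E ≥ 32 C ^ 13 (e + 1) ^ 2`
  have hEbig : 32 * (C ^ 13 * (e + 1) ^ 2) ≤ E := by
    rw [hE, Nat.le_div_iff_mul_le (by omega)]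
    calc 32 * (C ^ 13 * (e + 1) ^ 2) * (e + 1) = C ^ 13 * (32 * (e + 1) ^ 3) := by ring
      _ ≤ C ^ 13 * D := Nat.mul_le_mul_left _ (by omega)
      _ = C ^ (e - 5) := hCe5.symm
  have hC7 : 2 ≤ C ^ 7 := by
    calc 2 ≤ C ^ 1 := by rw [pow_one]; omega
      _ ≤ C ^ 7 := Nat.pow_le_pow_right hC0 (by norm_num)
  have hK2 : K + 2 ≤ 2 * K := by
    rw [hK]
    have : C ^ 7 * 1 ≤ C ^ 7 * (e + 1) := Nat.mul_le_mul_left _ he1
    omega
  have hKpos : 0 < K := by
    rw [hK]
    positivity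
  -- `w ≥ 8 C ^ 6 (e + 1)`
  have hwbig : 8 ≤ w := by
    rw [hw, Nat.le_div_iff_mul_le (by omega)]
    calc 8 * (K + 2) ≤ 8 * (2 * K) := Nat.mul_le_mul_left _ hK2
      _ = 16 * (C ^ 7 * (e + 1)) := by rw [hK]; ring
      _ ≤ 32 * (C ^ 13 * (e + 1) ^ 2) := by
          have h1 : C ^ 7 ≤ C ^ 13 := Nat.pow_le_pow_right hC0 (by norm_num)
          have h2 : (e + 1) ≤ (e + 1) ^ 2 := by nlinarith
          have h3 := Nat.mul_le_mul h1 h2
          omega
      _ ≤ E := hEbig
  set n := C ^ e / 2 / w with hn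
  have hnw : n * w ≤ C ^ e / 2 := Nat.div_mul_le_self _ _
  -- the bound for `n`
  have hnle : n + 1 ≤ C ^ 13 * (e + 1) ^ 2 := by
    -- `n * (C ^ (e - 5)) ≤ 8 * K * (e + 1) * C ^ e`
    have h1 : E ≤ w * (4 * K) := by
      have h11 : w * (K + 2) + (K + 2) ≤ 2 * (w * (K + 2)) := by
        have : 1 * (K + 2) ≤ w * (K + 2) := Nat.mul_le_mul_right _ (by omega)
        omega
      have h12 : 2 * (w * (K + 2)) ≤ 2 * (w * (2 * K)) :=
        Nat.mul_le_mul_left _ (Nat.mul_le_mul_left _ hK2)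
      have h13 : w * (4 * K) = 2 * (w * (2 * K)) := by ring
      omega
    have h2 : C ^ (e - 5) ≤ 2 * (E * (e + 1)) := by
      have : 1 * (e + 1) ≤ E * (e + 1) := by
        apply Nat.mul_le_mul_right
        have : 1 ≤ C ^ 13 * (e + 1) ^ 2 := Nat.mul_pos (by positivity) (by positivity)
        omega
      omega
    have h3 : n * C ^ (e - 5) ≤ 4 * K * (e + 1) * C ^ e := by
      calc n * C ^ (e - 5) ≤ n * (2 * (E * (e + 1))) := Nat.mul_le_mul_left _ h2
        _ ≤ n * (2 * ((w * (4 * K)) * (e + 1))) :=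
            Nat.mul_le_mul_left _ (Nat.mul_le_mul_left _ (Nat.mul_le_mul_right _ h1))
        _ = 8 * K * (e + 1) * (n * w) := by ring
        _ ≤ 8 * K * (e + 1) * (C ^ e / 2) := Nat.mul_le_mul_left _ hnw
        _ = 4 * K * (e + 1) * (2 * (C ^ e / 2)) := by ring
        _ ≤ 4 * K * (e + 1) * C ^ e := Nat.mul_le_mul_left _ (by omega)
    have h4 : n ≤ 4 * K * (e + 1) * C ^ 5 := by
      have h41 : n * C ^ (e - 5) ≤ 4 * K * (e + 1) * C ^ 5 * C ^ (e - 5) := by
        calc n * C ^ (e - 5) ≤ 4 * K * (e + 1) * C ^ e := h3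
          _ = 4 * K * (e + 1) * C ^ 5 * C ^ (e - 5) := by rw [hCe]; ring
      exact Nat.le_of_mul_le_mul_right h41 (by positivity)
    calc n + 1 ≤ 4 * K * (e + 1) * C ^ 5 + 1 := by omega
      _ = 4 * (C ^ 12 * (e + 1) ^ 2) + 1 := by rw [hK]; ring
      _ ≤ 8 * (C ^ 12 * (e + 1) ^ 2) := by
          have : 1 ≤ C ^ 12 * (e + 1) ^ 2 := Nat.mul_pos (by positivity) (by positivity)
          omega
      _ ≤ C * (C ^ 12 * (e + 1) ^ 2) := Nat.mul_le_mul_right _ (by omega)
      _ = C ^ 13 * (e + 1) ^ 2 := by ring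
  obtain ⟨Th, h1, h2, h3, h4, h5, h6⟩ := exists_Theta_gen' (W := C ^ e) (U := 200 * C ^ (e + 1)) (E := E)
    (K := K) (w := w) (h2C.trans (dvd_pow_self C (by omega))) (by omega) (by
      have : w * (K + 2) = w * (K + 1) + w := by ring
      omega)
    (by
      -- `2 w ≤ C ^ e`
      have h1 : w ≤ E := by
        calc w = w * 1 := by ring
          _ ≤ w * (K + 2) := Nat.mul_le_mul_left _ (by omega)
          _ ≤ E := hw2
      have h2 : E ≤ C ^ (e - 5) := by
        rw [hE]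
        exact Nat.div_le_self _ _
      have h3 : 2 * C ^ (e - 5) ≤ C ^ e := by
        rw [hCe]
        apply Nat.mul_le_mul_right
        calc 2 ≤ C ^ 1 := by rw [pow_one]; omega
          _ ≤ C ^ 5 := Nat.pow_le_pow_right hC0 (by norm_num)
      omega)
    (by
      rw [← hn]
      -- `9 + 3 n + w ≤ E / 2`
      have h1 : 2 * (9 + 3 * n + w) ≤ E := by
        have a1 : 8 * w ≤ E := by
          calc 8 * w ≤ w * (K + 2) := by
                rw [mul_comm]
                apply Nat.mul_le_mul_left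
                have : C ^ 7 * 1 ≤ K := Nat.mul_le_mul_left _ he1
                have : C ^ 1 ≤ C ^ 7 := Nat.pow_le_pow_right hC0 (by norm_num)
                rw [pow_one] at this
                omega
            _ ≤ E := hw2
        have a2 : 32 * (n + 1) ≤ E := (Nat.mul_le_mul_left 32 hnle).trans hEbig
        omega
      have h2 : K * (2 * (9 + 3 * n + w)) ≤ K * E := Nat.mul_le_mul_left _ h1
      have h3 : K * (2 * (9 + 3 * n + w)) = 2 * (K * (9 + 3 * n + w)) := by ring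
      -- `400 C ^ (e + 1) < K E`
      have h4 : 2 * (200 * C ^ (e + 1)) < K * E := by
        have b1 : C ^ (e + 1) = C ^ 6 * C ^ (e - 5) := by
          rw [← pow_add]
          congr 1
          omega
        have b2 : K * E = C ^ 7 * (E * (e + 1)) := by rw [hK]; ring
        have b3 : C ^ (e - 5) ≤ 2 * (E * (e + 1)) := by
          have : 1 * (e + 1) ≤ E * (e + 1) := by
            apply Nat.mul_le_mul_right
            have : 1 ≤ C ^ 13 * (e + 1) ^ 2 := Nat.mul_pos (by positivity) (by positivity)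
            omega
          omega
        have b4 : 0 < C ^ (e - 5) := by positivity
        rw [b1, b2]
        have b5 : 2 * (200 * (C ^ 6 * C ^ (e - 5))) ≤ 800 * (C ^ 6 * (E * (e + 1))) := by
          have := Nat.mul_le_mul_left (C ^ 6) b3
          have e1 : C ^ 6 * (2 * (E * (e + 1))) = 2 * (C ^ 6 * (E * (e + 1))) := by ring
          omega
        have b6 : 0 < C ^ 6 * (E * (e + 1)) := by
          have : 0 < E * (e + 1) := by omega
          positivity
        have b7 : 801 * (C ^ 6 * (E * (e + 1))) ≤ C ^ 7 * (E * (e + 1)) := by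
          have : C ^ 7 * (E * (e + 1)) = C * (C ^ 6 * (E * (e + 1))) := by ring
          rw [this]
          exact Nat.mul_le_mul_right _ (by omega)
        omega
      omega)
    Q hQU hQc
  refine ⟨Th, h1, h2, h3, h4.trans (Nat.mul_le_mul_right _ ?_), h5, h6⟩
  exact Nat.pow_le_pow_right (by norm_num) hnle


/-- the sets whose intersections with the random set of a unit are the lists -/
noncomputable def FamA (C e : ℕ) (Th D : Finset ℕ) : Finset (Finset ℕ) :=
  famAll (C ^ e) (50 * C ^ (e + 1)) ∪ FamB (C ^ e) Th D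

/-- The properties of the local sets of the units of epoch `e`, `D` the set of the values of the
composite units. -/
structure Loc2 (C e : ℕ) (D T Th : Finset ℕ) : Prop extends LocGood C e T Th where
  D_lt : ∀ t ∈ D, t < 2 ^ (C ^ e)
  D_card : D.card ≤ 2 ^ (C ^ e / 2)
  Th_low : ∀ k r, (Th.filter (fun t => t % 2 ^ k = r)).card ≤ 2 ^ (C ^ e / 2 - k)
  ThD : Mult (C ^ e) (BTh C e) Th D
  T_fam : ∀ q ∈ FamA C e Th D, (T ∩ q).card ≤ BT C e

theorem card_FamA {C e : ℕ} (hC : 50 ≤ C) (he : 20 ≤ e) (Th D : Finset ℕ) :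
    (FamA C e Th D).card ≤ 2 ^ (151 * C ^ (e + 1)) := by
  have hCe : C ^ (e + 1) = C ^ e * C := pow_succ C e
  have hW : C ≤ C ^ e := by
    calc C = C ^ 1 := (pow_one C).symm
      _ ≤ C ^ e := Nat.pow_le_pow_right (by omega) (by omega)
  have hWW : C ^ e * 50 ≤ C ^ (e + 1) := by
    rw [hCe]
    exact Nat.mul_le_mul_left _ hC
  have h1 := card_famAll (W := C ^ e) (L := 50 * C ^ (e + 1)) (by omega) (by omega)
  have h2 := card_FamB (L := C ^ e) Th D
  have h3 : (FamA C e Th D).card ≤ _ := Finset.card_union_le _ _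
  have e1 : 2 ^ (2 * C ^ e + 2) ≤ 2 ^ (3 * (50 * C ^ (e + 1)) + 2) :=
    Nat.pow_le_pow_right (by norm_num) (by omega)
  have e2 : 2 ^ (3 * (50 * C ^ (e + 1)) + 3) = 2 * 2 ^ (3 * (50 * C ^ (e + 1)) + 2) := by
    rw [pow_succ 2 (3 * (50 * C ^ (e + 1)) + 2)]
    ring
  have e3 : 2 ^ (3 * (50 * C ^ (e + 1)) + 3) ≤ 2 ^ (151 * C ^ (e + 1)) :=
    Nat.pow_le_pow_right (by norm_num) (by omega)
  omega

theorem FamA_card_mem {C e : ℕ} (h2 : 2 ∣ C) (he : 20 ≤ e) {Th D : Finset ℕ}
    (hTh : Th.card ≤ 2 ^ (C ^ e / 2)) (hD : D.card ≤ 2 ^ (C ^ e / 2)) {q : Finset ℕ}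
    (hq : q ∈ FamA C e Th D) : q.card ≤ 2 ^ (C ^ e / 2 + 2) := by
  have hW2 : 2 ∣ C ^ e := h2.trans (dvd_pow_self C (by omega))
  rcases Finset.mem_union.mp hq with h | h
  · exact mem_famAll_card hW2 h
  · exact (FamB_card_mem hW2 hTh hD h).trans (Nat.pow_le_pow_right (by norm_num) (by omega))

namespace Loc2

variable {C e : ℕ} {D T Th : Finset ℕ}

theorem TD (h : Loc2 C e D T Th) : Mult (C ^ e) (BT C e) T D :=
  Mult.of_neg h.T_lt h.D_lt (fun _ hν => h.T_fam _ (Finset.mem_union_right _ (FamB_C hν)))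

theorem T_low (h : Loc2 C e D T Th) (hB : 1 ≤ BT C e) (k r : ℕ) :
    (T.filter (fun t => t % 2 ^ k = r)).card ≤ BT C e * 2 ^ (C ^ e / 2 - k) := by
  apply low_of_half h.T_lt hB
  intro s r h1 h2 h3
  apply h.T_fam _ (Finset.mem_union_right _ (FamB_low h1 h2 _))
  exact lt_of_lt_of_le h3 (Nat.pow_le_pow_right (by norm_num) h2)

end Loc2

open Classical in
/-- **The local sets of the units.** -/
theorem exists_local2 {C e : ℕ} (hC : 2 ^ 20 ≤ C) (h2 : 2 ∣ C) (he : 20 ≤ e) (D : Finset ℕ)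
    (hD : ∀ x ∈ D, x < 2 ^ (C ^ e)) (hDc : D.card ≤ 2 ^ (C ^ e / 2)) :
    ∃ T Th : Finset ℕ, Loc2 C e D T Th := by
  have hCn : 1048576 ≤ C := by
    have : (2 : ℕ) ^ 20 = 1048576 := by norm_num
    omega
  set W := C ^ e with hW
  set L := 50 * C ^ (e + 1) with hL
  have hCe : C ^ (e + 1) = C ^ e * C := pow_succ C e
  have hWC : C ≤ W := by
    calc C = C ^ 1 := (pow_one C).symm
      _ ≤ C ^ e := Nat.pow_le_pow_right (by omega) (by omega)
  have hWW : W * 1048576 ≤ C ^ (e + 1) := by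
    rw [hCe]
    exact Nat.mul_le_mul_left _ hCn
  have hW2 : 2 ∣ W := h2.trans (dvd_pow_self C (by omega))
  have hfam : (famAll W L).card ≤ 2 ^ (3 * L + 2) := card_famAll (by omega) (by omega)
  have hcardq : ∀ q ∈ famAll W L, q.card ≤ 2 ^ (W / 2 + 2) := fun q hq => mem_famAll_card hW2 hq
  obtain ⟨Th, t1, t2, t3, t4, t5, t6⟩ := exists_Theta' hC h2 he
    (famAll W L ∪ (Finset.range (2 ^ W)).image (neg W D))
    (by
      have e1 : ((Finset.range (2 ^ W)).image (neg W D)).card ≤ 2 ^ W := by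
        refine Finset.card_image_le.trans ?_
        rw [Finset.card_range]
      have e2 := Finset.card_union_le (famAll W L) ((Finset.range (2 ^ W)).image (neg W D))
      have e3 : 2 ^ W ≤ 2 ^ (3 * L + 2) := Nat.pow_le_pow_right (by norm_num) (by omega)
      have e4 : 2 ^ (3 * L + 3) = 2 * 2 ^ (3 * L + 2) := by
        rw [pow_succ 2 (3 * L + 2)]
        ring
      have e5 : 2 ^ (3 * L + 3) ≤ 2 ^ (200 * C ^ (e + 1)) :=
        Nat.pow_le_pow_right (by norm_num) (by omega)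
      omega)
    (by
      intro q hq
      rcases Finset.mem_union.mp hq with h | h
      · exact (hcardq q h).trans (Nat.pow_le_pow_right (by norm_num) (by omega))
      · obtain ⟨ν, -, rfl⟩ := Finset.mem_image.mp h
        exact (card_neg _ _ _).trans (hDc.trans
          (Nat.pow_le_pow_right (by norm_num) (by omega))))
  obtain ⟨T, s1, s2, s3, s4⟩ := exists_T (H := W) (U := 151 * C ^ (e + 1))
    (m := 100 * C ^ (e + 1)) hW2 (by omega) (FamA C e Th D) (card_FamA (by omega) he _ _)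
    (fun q hq => FamA_card_mem h2 he t5 hDc hq) (by omega) (by omega)
  have hmB : 2 * (100 * C ^ (e + 1)) + 2 ≤ BT C e := by
    show 2 * (100 * C ^ (e + 1)) + 2 ≤ 400 * C ^ (e + 1)
    omega
  have hT : ∀ q ∈ FamA C e Th D, (T ∩ q).card ≤ BT C e := fun q hq =>
    (s3 q hq).trans (by omega)
  have hTQ : ∀ q ∈ famAll W L, (T ∩ q).card ≤ BT C e := fun q hq =>
    hT q (Finset.mem_union_left _ hq)
  have hThQ : ∀ q ∈ famAll W L, (Th ∩ q).card ≤ BTh C e := by
    intro q hq
    rw [← Finset.filter_mem_eq_inter]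
    exact (t3 q (Finset.mem_union_left _ hq)).le
  have hmix : Mult W (BT C e) T Th := Mult.of_neg s2 t1
    (fun _ hν => hT _ (Finset.mem_union_right _ (FamB_Th hν)))
  refine ⟨T, Th, ?_⟩
  exact
    { Th_lt := t1
      T_lt := s2
      Th_card := t5
      T_card := s1
      Th_large := t4
      Th_Qs := fun j k hj hk => hThQ _ (fam1_mem hj hk L)
      T_Qs := fun j k hj hk => hTQ _ (fam1_mem hj hk L)
      Th_QR := fun ν hν => hThQ _ (fam4_mem hν L)
      T_QR := fun ν hν => hTQ _ (fam4_mem hν L)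
      Th_QP := fun l q r h hl => hThQ _ (fam2_mem r h hl)
      T_QP := fun l q r h hl => hTQ _ (fam2_mem r h hl)
      T_F3 := by
        intro ν s _
        refine le_trans (Finset.card_le_card ?_) (hTQ (prog W (ν % 2 ^ W) (s % 2 ^ W))
          (fam3_mem (Nat.mod_lt _ (by positivity)) (Nat.mod_lt _ (by positivity)) L))
        intro t ht
        obtain ⟨h1, j, hj, h3⟩ := Finset.mem_filter.mp ht
        rw [Finset.mem_inter]
        refine ⟨h1, ?_⟩
        rw [← prog_mod]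
        exact Finset.mem_image.mpr ⟨j, Finset.mem_range.mpr hj, h3⟩
      mTT := Mult.mono s4 hmB
      mTTh := hmix
      mThT := Mult.symm hmix
      mThTh := t2
      D_lt := hD
      D_card := hDc
      Th_low := t6
      ThD := by
        apply Mult.of_neg t1 hD
        intro ν hν
        rw [← Finset.filter_mem_eq_inter]
        exact (t3 _ (Finset.mem_union_right _
          (Finset.mem_image.mpr ⟨ν, Finset.mem_range.mpr hν, rfl⟩))).le
      T_fam := hT }

end Pool.Agent.Helper83.E2
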