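import Pool.Agent.Helper83.E2.Loc2
import Pool.Agent.Helper83.ET.AllNear
import Pool.Agent.Helper16.E2.Reg2

/-!
# All codes of phase 2

`mkT C T Th TK`: the codes of T* with arbitrary block sets.  `mk2 c Sd TK : Codes2`: the codes of
phase 2, `Sd l` the set of the contents of a small cell of length `l`.
-/

namespace Pool.Agent.Helper83.E2

open Finset Pool.Agent.ETS Pool.Agent.ETS.RC Pool.Agent.Helper83.ET Pool.Agent.Helper5.ETP
open Pool.Agent.Helper41.ETPP
open Pool.Agent.Helper29.ETK (CC lg kk)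
open Pool.Agent.Helper29.E2 (ep Wd hh ll)
open Pool.Agent.E2 (comp Codes2)

/-! ### concatenations, the two forms -/

theorem mem_cat_iff {l : ℕ} {S : Finset ℕ} : ∀ {n z : ℕ}, z ∈ cat l S n ↔
    ∃ f : ℕ → ℕ, (∀ i < n, f i ∈ S) ∧ z = ∑ i ∈ Finset.range n, 2 ^ (l * i) * f i := by
  intro n
  induction n with
  | zero =>
    intro z
    rw [cat_zero, Finset.mem_singleton]
    constructor
    · intro h
      exact ⟨fun _ => 0, fun i hi => absurd hi (Nat.not_lt_zero i), by rw [h]; simp⟩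
    · rintro ⟨f, -, rfl⟩
      simp
  | succ n ih =>
    intro z
    rw [mem_cat_succ]
    constructor
    · rintro ⟨x, hx, s, hs, rfl⟩
      obtain ⟨f, hf, rfl⟩ := ih.mp hx
      refine ⟨fun i => if i = n then s else f i, ?_, ?_⟩
      · intro i hi
        rcases Nat.lt_succ_iff_lt_or_eq.mp hi with h | h
        · show (if i = n then s else f i) ∈ S
          rw [if_neg (by omega)]
          exact hf i h
        · show (if i = n then s else f i) ∈ S
          rw [if_pos h]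
          exact hs
      · rw [Finset.sum_range_succ]
        simp only [if_true]
        congr 1
        apply Finset.sum_congr rfl
        intro i hi
        have := Finset.mem_range.mp hi
        rw [if_neg (by omega)]
    · rintro ⟨f, hf, rfl⟩
      refine ⟨∑ i ∈ Finset.range n, 2 ^ (l * i) * f i, ?_, f n, hf n (Nat.lt_succ_self n), ?_⟩
      · exact ih.mpr ⟨f, fun i hi => hf i (by omega), rfl⟩
      · rw [Finset.sum_range_succ]

theorem mem_comp_iff {l : ℕ} {S : Finset ℕ} : ∀ {n z : ℕ}, z ∈ comp S l n ↔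
    ∃ f : ℕ → ℕ, (∀ i < n, f i ∈ S) ∧ z = ∑ i ∈ Finset.range n, 2 ^ (l * i) * f i := by
  intro n
  induction n with
  | zero =>
    intro z
    show z ∈ ({0} : Finset ℕ) ↔ _
    rw [Finset.mem_singleton]
    constructor
    · intro h
      exact ⟨fun _ => 0, fun i hi => absurd hi (Nat.not_lt_zero i), by rw [h]; simp⟩
    · rintro ⟨f, -, rfl⟩
      simp
  | succ n ih =>
    intro z
    show z ∈ (S ×ˢ comp S l n).image (fun q => q.1 + 2 ^ l * q.2) ↔ _
    rw [Finset.mem_image]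
    have hpow : ∀ i, 2 ^ (l * (i + 1)) = 2 ^ l * 2 ^ (l * i) := by
      intro i
      rw [← pow_add]
      congr 1
      ring
    constructor
    · rintro ⟨q, hq, rfl⟩
      obtain ⟨h1, h2⟩ := Finset.mem_product.mp hq
      obtain ⟨f, hf, he⟩ := ih.mp h2
      refine ⟨fun i => if i = 0 then q.1 else f (i - 1), ?_, ?_⟩
      · intro i hi
        by_cases h0 : i = 0
        · show (if i = 0 then q.1 else f (i - 1)) ∈ S
          rw [if_pos h0]
          exact h1
        · show (if i = 0 then q.1 else f (i - 1)) ∈ S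
          rw [if_neg h0]
          exact hf _ (by omega)
      · rw [Finset.sum_range_succ', he, Finset.mul_sum, Nat.add_comm]
        simp only [Nat.mul_zero, pow_zero, one_mul, if_true]
        congr 1
        apply Finset.sum_congr rfl
        intro i _
        rw [if_neg (Nat.succ_ne_zero i), Nat.add_sub_cancel, hpow i]
        ring
    · rintro ⟨f, hf, rfl⟩
      refine ⟨(f 0, ∑ i ∈ Finset.range n, 2 ^ (l * i) * f (i + 1)), ?_, ?_⟩
      · rw [Finset.mem_product]
        exact ⟨hf 0 (Nat.succ_pos n), ih.mpr ⟨fun i => f (i + 1), fun i hi => hf _ (by omega), rfl⟩⟩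
      · show f 0 + 2 ^ l * (∑ i ∈ Finset.range n, 2 ^ (l * i) * f (i + 1)) = _
        rw [Finset.sum_range_succ', Finset.mul_sum, Nat.add_comm]
        simp only [Nat.mul_zero, pow_zero, one_mul]
        congr 1
        apply Finset.sum_congr rfl
        intro i _
        rw [hpow i]
        ring

/-- helper16's concatenations are mine -/
theorem comp_eq_cat (S : Finset ℕ) (l n : ℕ) : comp S l n = cat l S n := by
  ext z
  rw [mem_comp_iff, mem_cat_iff]

/-! ### the codes of T* with arbitrary block sets -/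

/-- **The codes of T*, arbitrary block sets.** -/
noncomputable def mkT (C : ℕ) (T Th TK : ℕ → Finset ℕ) : Codes where
  W e := C ^ e
  X p l := (pcode C p).X l
  P p l x := (pcode C p).P l x
  Y l := RC.Yq (l / 2)
  E l y := RC.Rc l y % 2 ^ l
  T := T
  Th := Th
  TK := TK

variable {C : ℕ} {T Th TK : ℕ → Finset ℕ}

@[simp] theorem mkT_W (e : ℕ) : (mkT C T Th TK).W e = C ^ e := rfl
@[simp] theorem mkT_X (p l : ℕ) : (mkT C T Th TK).X p l = (pcode C p).X l := rfl
@[simp] theorem mkT_P (p l x : ℕ) : (mkT C T Th TK).P p l x = (pcode C p).P l x := rfl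
@[simp] theorem mkT_Y (l : ℕ) : (mkT C T Th TK).Y l = RC.Yq (l / 2) := rfl
@[simp] theorem mkT_E (l y : ℕ) : (mkT C T Th TK).E l y = RC.Rc l y % 2 ^ l := rfl
@[simp] theorem mkT_T (e : ℕ) : (mkT C T Th TK).T e = T e := rfl
@[simp] theorem mkT_Th (e : ℕ) : (mkT C T Th TK).Th e = Th e := rfl
@[simp] theorem mkT_TK (K : ℕ) : (mkT C T Th TK).TK K = TK K := rfl

/-- the codes of T* are of this form -/
theorem mk_eq_mkT (C : ℕ) (TK : ℕ → Finset ℕ) : mk C TK = mkT C (locT C) (locTh C) TK := rfl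

/-- helper5's interface. -/
theorem mkT_pcode (p : ℕ) : PCode ((mkT C T Th TK).X p) ((mkT C T Th TK).P p) :=
  (pcode C p).toPCode

theorem mkT_X_zero (p : ℕ) : (mkT C T Th TK).X p 0 = {1} := (pcode C p).X_zero

/-- what the near lemmas need of the block sets of epoch `e`: `B` the bound for `T` -/
structure NearT (C e B : ℕ) (T Th : Finset ℕ) : Prop where
  Th_lt : ∀ t ∈ Th, t < 2 ^ (C ^ e)
  T_lt : ∀ t ∈ T, t < 2 ^ (C ^ e)
  Th_card : Th.card ≤ 2 ^ (C ^ e / 2)
  T_card : T.card ≤ 2 ^ (C ^ e / 2)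
  T_Qs : ∀ j k, j < 2 ^ (4 * (C ^ e / 2)) → k < 2 ^ (4 * (C ^ e / 2)) →
    (T ∩ RC.Qs (C ^ e / 2) j k).card ≤ B
  T_QR : ∀ ν, ν < 2 ^ (C ^ e) → (T ∩ SH.QR (C ^ e) (C ^ e / 2) ν).card ≤ B
  T_QP : ∀ l q r, q + C ^ e ≤ l → l ≤ 50 * C ^ (e + 1) →
    (T ∩ QP VZ ind (C ^ e) l q r).card ≤ B
  T_F3 : F3 (C ^ e) T B
  mTT : Mult (C ^ e) B T T
  mTTh : Mult (C ^ e) B T Th
  mThTh : Mult (C ^ e) 2 Th Th

theorem _root_.Pool.Agent.Helper83.ET.LocGood.nearT {e : ℕ} {T Th : Finset ℕ}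
    (h : LocGood C e T Th) : NearT C e (BT C e) T Th where
  Th_lt := h.Th_lt
  T_lt := h.T_lt
  Th_card := h.Th_card
  T_card := by
    rw [h.T_card]
    exact Nat.pow_le_pow_right (by norm_num) (by omega)
  T_Qs := h.T_Qs
  T_QR := h.T_QR
  T_QP := h.T_QP
  T_F3 := h.T_F3
  mTT := h.mTT
  mTTh := h.mTTh
  mThTh := h.mThTh

/-- all sets whose intersections with `T` are the one sided lists of epoch `e` -/
noncomputable def FamT (C e : ℕ) (D T Th : Finset ℕ) : Finset (Finset ℕ) :=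
  FamA C e Th D ∪ (Finset.range (2 ^ (C ^ e))).image (neg (C ^ e) T)

theorem FamT_T {e ν : ℕ} {D T Th : Finset ℕ} (h : ν < 2 ^ (C ^ e)) :
    neg (C ^ e) T ν ∈ FamT C e D T Th :=
  Finset.mem_union_right _ (Finset.mem_image.mpr ⟨ν, Finset.mem_range.mpr h, rfl⟩)

theorem FamT_Th {e ν : ℕ} {D T Th : Finset ℕ} (h : ν < 2 ^ (C ^ e)) :
    neg (C ^ e) Th ν ∈ FamT C e D T Th :=
  Finset.mem_union_left _ (Finset.mem_union_right _ (FamB_Th h))

theorem FamT_D {e ν : ℕ} {D T Th : Finset ℕ} (h : ν < 2 ^ (C ^ e)) :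
    neg (C ^ e) D ν ∈ FamT C e D T Th :=
  Finset.mem_union_left _ (Finset.mem_union_right _ (FamB_C h))

theorem FamT_all {e : ℕ} {D T Th q : Finset ℕ} (h : q ∈ famAll (C ^ e) (50 * C ^ (e + 1))) :
    q ∈ FamT C e D T Th :=
  Finset.mem_union_left _ (Finset.mem_union_left _ h)

theorem card_FamT {e : ℕ} (hC : 50 ≤ C) (he : 20 ≤ e) (D T Th : Finset ℕ) :
    (FamT C e D T Th).card ≤ 2 ^ (152 * C ^ (e + 1)) := by
  have h1 := card_FamA hC he Th D
  have h2 : ((Finset.range (2 ^ (C ^ e))).image (neg (C ^ e) T)).card ≤ 2 ^ (C ^ e) := by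
    refine Finset.card_image_le.trans ?_
    rw [Finset.card_range]
  have h3 : (FamT C e D T Th).card ≤ _ := Finset.card_union_le _ _
  have h4 : 1 ≤ C ^ (e + 1) := Nat.one_le_pow _ _ (by omega)
  have h5 : C ^ e ≤ C ^ (e + 1) := Nat.pow_le_pow_right (by omega) (by omega)
  have e1 : 2 ^ (C ^ e) ≤ 2 ^ (151 * C ^ (e + 1)) := Nat.pow_le_pow_right (by norm_num) (by omega)
  have e2 : 2 ^ (151 * C ^ (e + 1) + 1) = 2 * 2 ^ (151 * C ^ (e + 1)) := by
    rw [pow_succ]
    ring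
  have e3 : 2 ^ (151 * C ^ (e + 1) + 1) ≤ 2 ^ (152 * C ^ (e + 1)) :=
    Nat.pow_le_pow_right (by norm_num) (by omega)
  omega

/-- every intersection of `T` with a set of the family is small -/
theorem Loc2.T_FamT {e : ℕ} {D T Th : Finset ℕ} (h : Loc2 C e D T Th) {q : Finset ℕ}
    (hq : q ∈ FamT C e D T Th) : (T ∩ q).card ≤ BT C e := by
  rcases Finset.mem_union.mp hq with h1 | h1
  · exact h.T_fam q h1
  · obtain ⟨ν, -, rfl⟩ := Finset.mem_image.mp h1
    exact Mult.inter_neg h.mTT ν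

/-- **A subset of `T` with few elements in the sets of the family.** -/
theorem Loc2.nearT_sub {e : ℕ} {D T Th T' : Finset ℕ} (h : Loc2 C e D T Th) (hT : T' ⊆ T) {B : ℕ}
    (hB : ∀ q ∈ FamT C e D T Th, (T' ∩ q).card ≤ B) : NearT C e B T' Th where
  Th_lt := h.Th_lt
  T_lt := fun t ht => h.T_lt t (hT ht)
  Th_card := h.Th_card
  T_card := (Finset.card_le_card hT).trans (by
    rw [h.T_card]
    exact Nat.pow_le_pow_right (by norm_num) (by omega))
  T_Qs := fun _ _ hj hk => hB _ (FamT_all (fam1_mem hj hk _))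
  T_QR := fun _ hν => hB _ (FamT_all (fam4_mem hν _))
  T_QP := fun _ _ r h1 h2 => hB _ (FamT_all (fam2_mem r h1 h2))
  T_F3 := by
    intro ν s _
    refine le_trans (Finset.card_le_card ?_) (hB (prog (C ^ e) (ν % 2 ^ (C ^ e))
      (s % 2 ^ (C ^ e))) (FamT_all (fam3_mem (Nat.mod_lt _ (by positivity))
        (Nat.mod_lt _ (by positivity)) _)))
    intro t ht
    obtain ⟨h1, j, hj, h3⟩ := Finset.mem_filter.mp ht
    rw [Finset.mem_inter]
    refine ⟨h1, ?_⟩
    rw [← prog_mod]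
    exact Finset.mem_image.mpr ⟨j, Finset.mem_range.mpr hj, h3⟩
  mTT := by
    apply Mult.of_neg (fun t ht => h.T_lt t (hT ht)) (fun t ht => h.T_lt t (hT ht))
    intro ν hν
    refine le_trans (Finset.card_le_card ?_) (hB _ (FamT_T hν))
    intro t ht
    obtain ⟨h1, h2⟩ := Finset.mem_inter.mp ht
    obtain ⟨h3, s, hs, h4⟩ := mem_neg.mp h2
    exact Finset.mem_inter.mpr ⟨h1, mem_neg.mpr ⟨h3, s, hT hs, h4⟩⟩
  mTTh := Mult.of_neg (fun t ht => h.T_lt t (hT ht)) h.Th_lt (fun _ hν => hB _ (FamT_Th hν))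
  mThTh := h.mThTh

theorem mkT_RBase {e B : ℕ} (h2 : 2 ∣ C ^ e) (h20 : 2 ^ 20 ≤ C ^ e)
    (h : NearT C e B (T e) (Th e)) : RC.RBase (mkT C T Th TK) e where
  hY := fun _ => rfl
  hE := fun _ _ => rfl
  hW := h2
  hW8 := le_trans (by norm_num) h20
  hT := h.T_lt
  hTh := h.Th_lt
  cT := h.T_card
  cTh := h.Th_card

/-- **helper86's `RNear`.** -/
theorem mkT_RNear (hC : 2 ^ 20 ≤ C) (h2 : 2 ∣ C) {e1 : ℕ} (he1 : 20 ≤ e1) {B : ℕ → ℕ}
    (h : ∀ e, e1 ≤ e → NearT C e (B e) (T e) (Th e)) : RC.RNear (mkT C T Th TK) e1 B where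
  base := fun e he => mkT_RBase (W_facts hC h2 (he1.trans he)).1 (W_facts hC h2 (he1.trans he)).2
    (h e he)
  fT := fun e he j k hj hk => (h e he).T_Qs j k hj hk
  gT := fun e he ν hν => (h e he).T_QR ν hν
  mTT := fun e he => (h e he).mTT
  mTTh := fun e he => (h e he).mTTh
  mThTh := fun e he => (h e he).mThTh

/-- helper86's hypotheses for far pairs. -/
theorem mkT_RHyp (hC : 2 ^ 20 ≤ C) (h2 : 2 ∣ C) {e : ℕ} (he : 20 ≤ e)
    (hg : LocGood C e (T e) (Th e)) : RC.RHyp (mkT C T Th TK) e (BTh C e) (BT C e) := by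
  obtain ⟨hW2, hW20⟩ := W_facts hC h2 he
  have hBB := BT_le_BTh hC he
  have hBT1 : 2 ≤ BT C e := by
    unfold BT
    have : 0 < C ^ (e + 1) := by
      have : 0 < C := by
        have : 0 < 2 ^ 20 := by positivity
        omega
      positivity
    omega
  exact
    { toRBase := mkT_RBase hW2 hW20 hg.nearT
      fT := fun j k hj hk => (hg.T_Qs j k hj hk).trans hBB
      fTh := hg.Th_Qs
      gT := fun ν hν => (hg.T_QR ν hν).trans hBB
      gTh := hg.Th_QR
      mTT := hg.mTT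
      mTTh := hg.mTTh
      mThT := hg.mThT
      mThTh := fun s => (hg.mThTh s).trans hBT1
      r1 := by omega
      rB := hBB }

/-- helper5's sets `QP`. -/
theorem QP_subT (h : 256 ≤ C) {p W l q r : ℕ} (hl : l ≤ C ^ e0 p) :
    QP ((mkT C T Th TK).X p) ((mkT C T Th TK).P p) W l q r ⊆ QP VZ ind W l q r :=
  QP_sub (TK := TK) h hl

theorem mkT_T_QP (hC : 2 ^ 20 ≤ C) {e B : ℕ} (hg : NearT C e B (T e) (Th e)) {l q : ℕ} (r : ℕ)
    (hq : q + C ^ e ≤ l) (hl : l ≤ 50 * C ^ (e + 1)) :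
    (T e ∩ QP ((mkT C T Th TK).X (e + 1)) ((mkT C T Th TK).P (e + 1)) (C ^ e) l q r).card ≤ B := by
  have hC256 : 256 ≤ C := le_trans (by norm_num) hC
  refine le_trans (Finset.card_le_card ?_) (hg.T_QP l q r hq hl)
  exact Finset.inter_subset_inter_left (QP_subT hC256 (hl.trans (fifty_le hC e)))

theorem mkT_Th_QP (hC : 2 ^ 20 ≤ C) {e : ℕ} (hg : LocGood C e (T e) (Th e)) {l q : ℕ} (r : ℕ)
    (hq : q + C ^ e ≤ l) (hl : l ≤ 50 * C ^ (e + 1)) :
    (Th e ∩ QP ((mkT C T Th TK).X (e + 1)) ((mkT C T Th TK).P (e + 1)) (C ^ e) l q r).card ≤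
      BTh C e := by
  have hC256 : 256 ≤ C := le_trans (by norm_num) hC
  refine le_trans (Finset.card_le_card ?_) (hg.Th_QP l q r hq hl)
  exact Finset.inter_subset_inter_left (QP_subT hC256 (hl.trans (fifty_le hC e)))

/-- helper41's hypotheses, anchors of epoch `e`. -/
theorem mkT_PTok (hC : 2 ^ 20 ≤ C) (h2 : 2 ∣ C) {e B : ℕ} (he : 20 ≤ e)
    (hg : NearT C e B (T e) (Th e)) {L : ℕ} (hL : C ^ e ∣ L) :
    PTok (mkT C T Th TK) (pcode C (e + 1)) B e L := by
  obtain ⟨hW2, hW20⟩ := W_facts hC h2 he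
  have hC256 : 256 ≤ C := le_trans (by norm_num) hC
  exact
    { four_le := le_trans (by norm_num) hW20
      even := Nat.mod_eq_zero_of_dvd hW2
      lt := hg.T_lt
      card := hg.T_card
      f3 := hg.T_F3
      f4 := by
        intro _ ν
        have h1 := mkT_T_QP (TK := TK) hC hg (l := C ^ e) (q := 0) ν (by omega) (by
          calc C ^ e ≤ 50 * C ^ e := by omega
            _ ≤ 50 * C ^ (e + 1) := Nat.mul_le_mul_left _
              (Nat.pow_le_pow_right (by omega) (by omega)))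
        refine le_trans (Finset.card_le_card ?_) h1
        intro t ht
        obtain ⟨ht1, x, hx, hxt⟩ := Finset.mem_filter.mp ht
        rw [Finset.mem_inter, mem_QP]
        refine ⟨ht1, hg.T_lt t ht1, x, hx, ?_⟩
        show (pcode C (e + 1)).P (C ^ e) x + 2 ^ 0 * t ≡ ν [MOD 2 ^ (C ^ e)]
        rw [pow_zero, one_mul, Nat.ModEq]
        have h3 : ν < 2 ^ (C ^ e) := by
          rw [← hxt]
          exact Nat.mod_lt _ (by positivity)
        rw [Nat.mod_eq_of_lt h3]
        exact hxt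
      sum := hg.mTT
      pos := by
        intro hpos
        refine ⟨Nat.le_of_dvd hpos hL, fun i _ => pcode_gap hC256 hL i⟩ }

/-- helper41's hypotheses, anchor 0; the unit is far from the start (`3 e` may be replaced by any
larger exponent). -/
theorem mkT_PTok_zero (hC : 2 ^ 20 ≤ C) (h2 : 2 ∣ C) {e B : ℕ} (he : 20 ≤ e)
    (hg : NearT C e B (T e) (Th e)) {L : ℕ} (hL : C ^ e ∣ L)
    (hpos : 0 < L) (hgap : ∀ i, (pcode C 0).β i ≤ L ∨ L + C ^ e ≤ (pcode C 0).β i) :
    PTok (mkT C T Th TK) (pcode C 0) B e L := by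
  obtain ⟨hW2, hW20⟩ := W_facts hC h2 he
  exact
    { four_le := le_trans (by norm_num) hW20
      even := Nat.mod_eq_zero_of_dvd hW2
      lt := hg.T_lt
      card := hg.T_card
      f3 := hg.T_F3
      f4 := fun h => absurd h (by omega)
      sum := hg.mTT
      pos := fun _ => ⟨Nat.le_of_dvd hpos hL, fun i _ => hgap i⟩ }

end Pool.Agent.Helper83.E2
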