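import Pool.Agent.Helper83.E2.Cat
import Pool.Agent.Helper83.E2.Theta
import Pool.Agent.Helper83.ET.Rand

/-!
# The local sets `Th1`, `T1` of the mid blocks
-/

namespace Pool.Agent.Helper83.E2

open Finset Pool.Agent.ETS Pool.Agent.ETS.RC Pool.Agent.Helper83.ET

/-- numbers below `2 ^ L` with prescribed low digits -/
def lowc (L s r : ℕ) : Finset ℕ := (Finset.range (2 ^ L)).filter (fun t => t % 2 ^ s = r)

theorem mem_lowc {L s r t : ℕ} : t ∈ lowc L s r ↔ t < 2 ^ L ∧ t % 2 ^ s = r := by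
  unfold lowc
  rw [Finset.mem_filter, Finset.mem_range]

theorem card_lowc {L s : ℕ} (r : ℕ) (h : s ≤ L) : (lowc L s r).card ≤ 2 ^ (L - s) := by
  have hM : 0 < 2 ^ s := by positivity
  have h1 : (lowc L s r).card ≤ (Finset.range (2 ^ (L - s))).card := by
    apply Finset.card_le_card_of_injOn (fun z => z / 2 ^ s)
    · intro z hz
      have hz' := mem_lowc.mp (Finset.mem_coe.mp hz)
      rw [Finset.mem_coe, Finset.mem_range]
      show z / 2 ^ s < 2 ^ (L - s)
      rw [Nat.div_lt_iff_lt_mul hM, ← pow_add]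
      exact lt_of_lt_of_le hz'.1 (Nat.pow_le_pow_right (by norm_num) (by omega))
    · intro z hz z' hz' h
      have a1 := (mem_lowc.mp (Finset.mem_coe.mp hz)).2
      have a2 := (mem_lowc.mp (Finset.mem_coe.mp hz')).2
      have h' : z / 2 ^ s = z' / 2 ^ s := h
      rw [← Nat.div_add_mod z (2 ^ s), ← Nat.div_add_mod z' (2 ^ s), a1, a2, h']
  rwa [Finset.card_range] at h1

/-- prescribed low digits: from at least half of the digits to all numbers of digits -/
theorem low_of_half {L B : ℕ} {T : Finset ℕ} (hT : ∀ t ∈ T, t < 2 ^ L) (hB : 1 ≤ B)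
    (h : ∀ s r, L / 2 ≤ s → s ≤ L → r < 2 ^ s → (T ∩ lowc L s r).card ≤ B) (s r : ℕ) :
    (T.filter (fun t => t % 2 ^ s = r)).card ≤ B * 2 ^ (L / 2 - s) := by
  classical
  rcases Nat.lt_or_ge r (2 ^ s) with hr | hr
  swap
  · have : T.filter (fun t => t % 2 ^ s = r) = ∅ := by
      rw [Finset.filter_eq_empty_iff]
      intro t _ h
      have := Nat.mod_lt t (show 0 < 2 ^ s by positivity)
      omega
    rw [this]
    simp
  rcases Nat.lt_or_ge L s with h1 | h1
  · have hpow : L / 2 - s = 0 := by omega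
    rw [hpow, pow_zero, mul_one]
    refine le_trans ?_ hB
    rw [Finset.card_le_one]
    intro t ht t' ht'
    have a1 := Finset.mem_filter.mp ht
    have a2 := Finset.mem_filter.mp ht'
    have hle : 2 ^ L ≤ 2 ^ s := Nat.pow_le_pow_right (by norm_num) h1.le
    have e1 := Nat.mod_eq_of_lt (lt_of_lt_of_le (hT t a1.1) hle)
    have e2 := Nat.mod_eq_of_lt (lt_of_lt_of_le (hT t' a2.1) hle)
    rw [← e1, ← e2, a1.2, a2.2]
  rcases Nat.lt_or_ge s (L / 2) with h2 | h2
  · -- split into classes modulo `2 ^ (L / 2)`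
    have hpos : 0 < 2 ^ s := by positivity
    have hsub : T.filter (fun t => t % 2 ^ s = r) ⊆
        (Finset.range (2 ^ (L / 2 - s))).biUnion
          (fun j => T ∩ lowc L (L / 2) (r + 2 ^ s * j)) := by
      intro t ht
      obtain ⟨h3, h4⟩ := Finset.mem_filter.mp ht
      rw [Finset.mem_biUnion]
      have hsplit : 2 ^ (L / 2) = 2 ^ s * 2 ^ (L / 2 - s) := by
        rw [← pow_add]
        congr 1
        omega
      refine ⟨t % 2 ^ (L / 2) / 2 ^ s, ?_, ?_⟩
      · rw [Finset.mem_range, Nat.div_lt_iff_lt_mul hpos, mul_comm, ← hsplit]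
        exact Nat.mod_lt _ (by positivity)
      · rw [Finset.mem_inter]
        refine ⟨h3, mem_lowc.mpr ⟨hT t h3, ?_⟩⟩
        have h5 : t % 2 ^ (L / 2) % 2 ^ s = r := by
          rw [Nat.mod_mod_of_dvd _ (pow_dvd_pow 2 h2.le)]
          exact h4
        have h6 := Nat.mod_add_div (t % 2 ^ (L / 2)) (2 ^ s)
        rw [h5] at h6
        exact h6.symm
    refine (Finset.card_le_card hsub).trans (Finset.card_biUnion_le.trans ?_)
    have h3 : ∀ j ∈ Finset.range (2 ^ (L / 2 - s)),
        (T ∩ lowc L (L / 2) (r + 2 ^ s * j)).card ≤ B := by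
      intro j hj
      apply h _ _ (le_refl _) (by omega)
      have hj' := Finset.mem_range.mp hj
      have hsplit : 2 ^ (L / 2) = 2 ^ s * 2 ^ (L / 2 - s) := by
        rw [← pow_add]
        congr 1
        omega
      rw [hsplit]
      calc r + 2 ^ s * j < 2 ^ s + 2 ^ s * j := by omega
        _ = 2 ^ s * (j + 1) := by ring
        _ ≤ 2 ^ s * 2 ^ (L / 2 - s) := Nat.mul_le_mul_left _ hj'
    refine (Finset.sum_le_sum h3).trans ?_
    rw [Finset.sum_const, Finset.card_range, smul_eq_mul, mul_comm]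
  · have hpow : L / 2 - s = 0 := by omega
    rw [hpow, pow_zero, mul_one]
    refine le_trans (Finset.card_le_card ?_) (h s r h2 h1 hr)
    intro t ht
    obtain ⟨h3, h4⟩ := Finset.mem_filter.mp ht
    exact Finset.mem_inter.mpr ⟨h3, mem_lowc.mpr ⟨hT t h3, h4⟩⟩

/-- **Random sets**, the form used here. -/
theorem exists_T {H U m : ℕ} (h2 : 2 ∣ H) (hH : 40 ≤ H) (F : Finset (Finset ℕ))
    (hF : F.card ≤ 2 ^ U) (hFq : ∀ q ∈ F, q.card ≤ 2 ^ (H / 2 + 2)) (hm : U + 2 ≤ 8 * m)
    (hm2 : H + 2 ≤ 20 * m) :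
    ∃ T : Finset ℕ, T.card = 2 ^ (H / 2 - 10) ∧ (∀ t ∈ T, t < 2 ^ H) ∧
      (∀ q ∈ F, (T ∩ q).card ≤ m) ∧ Mult H (2 * m + 2) T T := by
  classical
  obtain ⟨w, hw⟩ := h2
  have hwW : H / 2 = w := by omega
  have hw20 : 20 ≤ w := by omega
  obtain ⟨T, s1, s2, s3, s4⟩ := exists_rand (N := 2 ^ (w - 10)) (M := 2 ^ H) (m := m)
    (q := 2 ^ (w + 2)) (by positivity) F (by rw [hwW] at hFq; exact hFq)
    (by
      have e1 : 2 ^ (w - 10) * 2 ^ (w + 2) = 2 ^ (H - 8) := by
        rw [← pow_add]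
        congr 1
        omega
      rw [e1, ← pow_mul, ← pow_mul]
      calc 4 * F.card * 2 ^ ((H - 8) * m) ≤ 4 * 2 ^ U * 2 ^ ((H - 8) * m) :=
            Nat.mul_le_mul_right _ (Nat.mul_le_mul_left _ hF)
        _ = 2 ^ (2 + U + (H - 8) * m) := by
            rw [pow_add 2 (2 + U), pow_add 2 2 U]
            norm_num
        _ ≤ 2 ^ (H * m) := by
            apply Nat.pow_le_pow_right (by norm_num)
            have e2 : H * m = (H - 8) * m + 8 * m := by
              rw [← Nat.add_mul]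
              congr 1
              omega
            omega)
    (by
      have e1 : 2 ^ (w - 10) * 2 ^ (w - 10) = 2 ^ (H - 20) := by
        rw [← pow_add]
        congr 1
        omega
      rw [e1, ← pow_mul, ← pow_mul]
      calc 4 * 2 ^ H * 2 ^ ((H - 20) * m) = 2 ^ (2 + H + (H - 20) * m) := by
            rw [pow_add 2 (2 + H), pow_add 2 2 H]
            norm_num
        _ ≤ 2 ^ (H * m) := by
            apply Nat.pow_le_pow_right (by norm_num)
            have e2 : H * m = (H - 20) * m + 20 * m := by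
              rw [← Nat.add_mul]
              congr 1
              omega
            omega)
    (by
      have e1 : 2 ^ (w - 10) * 2 ^ (w - 10) = 2 ^ (H - 20) := by
        rw [← pow_add]
        congr 1
        omega
      rw [e1]
      calc 4 * 2 ^ (H - 20) = 2 ^ (2 + (H - 20)) := by
            rw [pow_add]
            norm_num
        _ ≤ 2 ^ H := Nat.pow_le_pow_right (by norm_num) (by omega))
  refine ⟨T, by rw [s1, hwW], s2, ?_, s4⟩
  intro q hq
  rw [← Finset.filter_mem_eq_inter]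
  exact (s3 q hq).le

/-- the sets whose intersections with the random set are the lists: translates of `-Th` and `-C`,
numbers with prescribed low digits -/
def FamB (L : ℕ) (Th C : Finset ℕ) : Finset (Finset ℕ) :=
  (Finset.range (2 ^ L)).image (neg L Th) ∪ (Finset.range (2 ^ L)).image (neg L C) ∪
    (((Finset.range (L + 1)).filter (fun s => L / 2 ≤ s)) ×ˢ (Finset.range (2 ^ L))).image
      (fun q => lowc L q.1 q.2)

theorem FamB_Th {L ν : ℕ} {Th C : Finset ℕ} (h : ν < 2 ^ L) : neg L Th ν ∈ FamB L Th C := by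
  unfold FamB
  rw [Finset.mem_union, Finset.mem_union]
  exact Or.inl (Or.inl (Finset.mem_image.mpr ⟨ν, Finset.mem_range.mpr h, rfl⟩))

theorem FamB_C {L ν : ℕ} {Th C : Finset ℕ} (h : ν < 2 ^ L) : neg L C ν ∈ FamB L Th C := by
  unfold FamB
  rw [Finset.mem_union, Finset.mem_union]
  exact Or.inl (Or.inr (Finset.mem_image.mpr ⟨ν, Finset.mem_range.mpr h, rfl⟩))

theorem FamB_low {L s r : ℕ} {Th C : Finset ℕ} (h1 : L / 2 ≤ s) (h2 : s ≤ L) (h : r < 2 ^ L) :
    lowc L s r ∈ FamB L Th C := by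
  unfold FamB
  rw [Finset.mem_union]
  refine Or.inr (Finset.mem_image.mpr ⟨(s, r), ?_, rfl⟩)
  rw [Finset.mem_product, Finset.mem_filter, Finset.mem_range, Finset.mem_range]
  exact ⟨⟨Nat.lt_succ_of_le h2, h1⟩, h⟩

theorem card_FamB {L : ℕ} (Th C : Finset ℕ) : (FamB L Th C).card ≤ 2 ^ (2 * L + 2) := by
  unfold FamB
  have h1 : ((Finset.range (2 ^ L)).image (neg L Th)).card ≤ 2 ^ L := by
    refine Finset.card_image_le.trans ?_
    rw [Finset.card_range]
  have h2 : ((Finset.range (2 ^ L)).image (neg L C)).card ≤ 2 ^ L := by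
    refine Finset.card_image_le.trans ?_
    rw [Finset.card_range]
  have h3 : ((((Finset.range (L + 1)).filter (fun s => L / 2 ≤ s)) ×ˢ
      (Finset.range (2 ^ L))).image (fun q => lowc L q.1 q.2)).card ≤ 2 ^ (2 * L) := by
    refine Finset.card_image_le.trans ?_
    rw [Finset.card_product, Finset.card_range, two_mul, pow_add]
    apply Nat.mul_le_mul_right
    refine (Finset.card_filter_le _ _).trans ?_
    rw [Finset.card_range]
    exact Nat.lt_two_pow_self
  have u1 := Finset.card_union_le ((Finset.range (2 ^ L)).image (neg L Th) ∪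
    (Finset.range (2 ^ L)).image (neg L C)) ((((Finset.range (L + 1)).filter
      (fun s => L / 2 ≤ s)) ×ˢ (Finset.range (2 ^ L))).image (fun q => lowc L q.1 q.2))
  have u2 := Finset.card_union_le ((Finset.range (2 ^ L)).image (neg L Th))
    ((Finset.range (2 ^ L)).image (neg L C))
  have e1 : 2 ^ L ≤ 2 ^ (2 * L) := Nat.pow_le_pow_right (by norm_num) (by omega)
  have e2 : 2 ^ (2 * L + 2) = 4 * 2 ^ (2 * L) := by
    rw [pow_add]
    ring
  omega

theorem FamB_card_mem {L : ℕ} (h2 : 2 ∣ L) {Th C : Finset ℕ} (hTh : Th.card ≤ 2 ^ (L / 2))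
    (hC : C.card ≤ 2 ^ (L / 2)) {q : Finset ℕ} (hq : q ∈ FamB L Th C) : q.card ≤ 2 ^ (L / 2) := by
  unfold FamB at hq
  rw [Finset.mem_union, Finset.mem_union] at hq
  rcases hq with (hq | hq) | hq
  · obtain ⟨ν, -, rfl⟩ := Finset.mem_image.mp hq
    exact (card_neg _ _ _).trans hTh
  · obtain ⟨ν, -, rfl⟩ := Finset.mem_image.mp hq
    exact (card_neg _ _ _).trans hC
  · obtain ⟨p, hp, rfl⟩ := Finset.mem_image.mp hq
    rw [Finset.mem_product, Finset.mem_filter, Finset.mem_range] at hp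
    refine (card_lowc _ (Nat.lt_succ_iff.mp hp.1.1)).trans ?_
    apply Nat.pow_le_pow_right (by norm_num)
    obtain ⟨w, hw⟩ := h2
    have := hp.1.2
    omega

/-- the multiplicity of `T1` -/
def B1 (H : ℕ) : ℕ := 400 * H

/-- The properties of the local sets of the mid blocks, length `l * n`, `C` the set of the values
of the composite blocks. -/
structure Loc1 (l n : ℕ) (C T Th : Finset ℕ) : Prop where
  Th_lt : ∀ t ∈ Th, t < 2 ^ (l * n)
  T_lt : ∀ t ∈ T, t < 2 ^ (l * n)
  C_lt : ∀ t ∈ C, t < 2 ^ (l * n)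
  Th_card : Th.card ≤ 2 ^ (l * n / 2)
  C_card : C.card ≤ 2 ^ (l * n / 2)
  T_card : T.card = 2 ^ (l * n / 2 - 10)
  Th_large : (VZ (l * n)).card ≤ 4 ^ (16 * n ^ 2 + 1) * Th.card
  Th_low : ∀ k r, (Th.filter (fun t => t % 2 ^ k = r)).card ≤ 2 ^ (l * n / 2 - k)
  ThTh : Mult (l * n) 2 Th Th
  ThC : Mult (l * n) (2 ^ l) Th C
  T_fam : ∀ q ∈ FamB (l * n) Th C, (T ∩ q).card ≤ B1 (l * n)
  TT : Mult (l * n) (B1 (l * n)) T T

namespace Loc1

variable {l n : ℕ} {C T Th : Finset ℕ}

theorem TTh (h : Loc1 l n C T Th) : Mult (l * n) (B1 (l * n)) T Th :=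
  Mult.of_neg h.T_lt h.Th_lt (fun _ hν => h.T_fam _ (FamB_Th hν))

theorem TC (h : Loc1 l n C T Th) : Mult (l * n) (B1 (l * n)) T C :=
  Mult.of_neg h.T_lt h.C_lt (fun _ hν => h.T_fam _ (FamB_C hν))

theorem T_low (h : Loc1 l n C T Th) (hB : 1 ≤ B1 (l * n)) (k r : ℕ) :
    (T.filter (fun t => t % 2 ^ k = r)).card ≤ B1 (l * n) * 2 ^ (l * n / 2 - k) := by
  apply low_of_half h.T_lt hB
  intro s r h1 h2 h3
  apply h.T_fam _ (FamB_low h1 h2 _)
  exact lt_of_lt_of_le h3 (Nat.pow_le_pow_right (by norm_num) h2)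

end Loc1

/-- **The local sets of the mid blocks.** -/
theorem exists_local1 {l n : ℕ} (hl2 : 2 ∣ l) (hn : 1 ≤ n) (hln : 512 * n ^ 2 ≤ l)
    (C : Finset ℕ) (hC : ∀ x ∈ C, x < 2 ^ (l * n)) (hCc : C.card ≤ 2 ^ (l * n / 2)) :
    ∃ T Th : Finset ℕ, Loc1 l n C T Th := by
  set H := l * n with hH
  have hn2 : n ≤ n ^ 2 := by nlinarith
  have hn22 : 1 ≤ n ^ 2 := by nlinarith
  have hl512 : 512 ≤ l := by omega
  have hHl : l ≤ H := by
    rw [hH]
    exact Nat.le_mul_of_pos_right l (by omega)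
  have hH2 : 2 ∣ H := Dvd.dvd.mul_right hl2 n
  -- the parameters of `Theta`
  set w := l / (16 * n) with hw
  have hw1 : w * (16 * n) ≤ l := Nat.div_mul_le_self _ _
  have hw2 : l < w * (16 * n) + 16 * n := by
    have := Nat.lt_div_mul_add (a := l) (show 0 < 16 * n by omega)
    rwa [← hw] at this
  have hw3 : 3 ≤ w := by
    rw [hw, Nat.le_div_iff_mul_le (by omega)]
    omega
  -- `H / 2 / w ≤ 16 n ^ 2`
  have hquot : H / 2 / w ≤ 16 * n ^ 2 := by
    apply Nat.div_le_of_le_mul
    have h1 : l ≤ 2 * (w * (16 * n)) := by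
      have : 1 * (16 * n) ≤ w * (16 * n) := Nat.mul_le_mul_right _ (by omega)
      omega
    have h2 : H ≤ 2 * (w * (16 * n)) * n := Nat.mul_le_mul_right _ h1
    have h3 : 2 * (w * (16 * n)) * n = 2 * (w * (16 * n ^ 2)) := by ring
    omega
  obtain ⟨Th, t1, t2, t3, t4, t5, t6⟩ := exists_Theta_gen' (W := H) (U := 3 * H) (E := l)
    (K := 8 * n) (w := w) hH2 hw3
    (by
      -- `w (8 n + 1) + 1 ≤ l`
      have h1 : w * (8 * n + 1) ≤ w * (9 * n) := Nat.mul_le_mul_left _ (by omega)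
      have h2 : w * (16 * n) = w * (9 * n) + w * (7 * n) := by ring
      have h3 : 1 * 1 ≤ w * (7 * n) := Nat.mul_le_mul (by omega) (by omega)
      omega)
    (by
      -- `2 w ≤ H`
      have h1 : w * 2 ≤ w * (16 * n) := Nat.mul_le_mul_left _ (by omega)
      omega)
    (by
      -- `3 H + 8 n (9 + 3 (H / 2 / w) + w) < 8 n l`
      have h1 : 8 * n * (9 + 3 * (H / 2 / w) + w) ≤ 8 * n * (9 + 48 * n ^ 2 + w) :=
        Nat.mul_le_mul_left _ (by omega)
      have h2 : 8 * n * (9 + 48 * n ^ 2 + w) ≤ n * (456 * n ^ 2) + 8 * (w * n) := by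
        have : 8 * n * (9 + 48 * n ^ 2 + w) = n * (72 + 384 * n ^ 2) + 8 * (w * n) := by ring
        rw [this]
        apply Nat.add_le_add_right
        exact Nat.mul_le_mul_left _ (by omega)
      have h3 : n * (456 * n ^ 2) ≤ n * l := Nat.mul_le_mul_left _ (by omega)
      have h4 : 8 * (w * n) * 2 ≤ l := by
        have : 8 * (w * n) * 2 = w * (16 * n) := by ring
        omega
      have h5 : n * l = H := by rw [hH, mul_comm]
      have h6 : 8 * n * l = 8 * H := by rw [hH]; ring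
      omega)
    ((Finset.range (2 ^ H)).image (neg H C))
    (by
      refine Finset.card_image_le.trans ?_
      rw [Finset.card_range]
      exact Nat.pow_le_pow_right (by norm_num) (by omega))
    (by
      intro q hq
      obtain ⟨ν, -, rfl⟩ := Finset.mem_image.mp hq
      exact (card_neg _ _ _).trans (hCc.trans (Nat.pow_le_pow_right (by norm_num) (by omega))))
  obtain ⟨T, s1, s2, s3, s4⟩ := exists_T (H := H) (U := 2 * H + 2) (m := 100 * H) hH2 (by omega)
    (FamB H Th C) (card_FamB _ _)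
    (fun q hq => (FamB_card_mem hH2 t5 hCc hq).trans
      (Nat.pow_le_pow_right (by norm_num) (by omega))) (by omega) (by omega)
  refine ⟨T, Th, ?_⟩
  exact
    { Th_lt := t1
      T_lt := s2
      C_lt := hC
      Th_card := t5
      C_card := hCc
      T_card := s1
      Th_large := t4.trans (Nat.mul_le_mul_right _
        (Nat.pow_le_pow_right (by norm_num) (by omega)))
      Th_low := t6
      ThTh := t2
      ThC := by
        apply Mult.of_neg t1 hC
        intro ν hν
        rw [← Finset.filter_mem_eq_inter]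
        exact (t3 _ (Finset.mem_image.mpr ⟨ν, Finset.mem_range.mpr hν, rfl⟩)).le
      T_fam := fun q hq => (s3 q hq).trans (by unfold B1; omega)
      TT := Mult.mono s4 (by unfold B1; omega) }

end Pool.Agent.Helper83.E2
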