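import Pool.Agent.Helper83.E2.Mk2
import Pool.Agent.Helper16.E2.Fam
import Pool.Agent.Helper16.ETL.Near2

/-!
# The near lemma for the top zone: composite regions
-/

namespace Pool.Agent.E2

open Finset
open Pool.Agent.ETS (Hash exists_modEq_shift modEq_sub_of_mul add_pow_mul_mod)
open Pool.Agent.ETS.RC (Mult)
open Pool.Agent.Helper83.E2 (neg mem_neg cat cat_lt mult_cat comp_eq_cat)

/-- `n` regions of length `l`, the first one with the bottom `s` -/
def lst (mk : ℕ → Rg) (l : ℕ) : ℕ → ℕ → List Rg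
  | 0, _ => []
  | n + 1, s => mk s :: lst mk l n (s + l)

/-- `mk s` is a region `[s, s + l)` with the set `S` of contents -/
structure IsSet (mk : ℕ → Rg) (l : ℕ) (S : Finset ℕ) : Prop where
  bot : ∀ s, (mk s).bot = s
  top : ∀ s, (mk s).top = s + l
  V : ∀ s, (mk s).V = S
  c : ∀ s z, (mk s).c z = z

lemma IsSet.len {mk : ℕ → Rg} {l : ℕ} {S : Finset ℕ} (h : IsSet mk l S) (s : ℕ) :
    (mk s).len = l := by
  unfold Rg.len
  rw [h.bot, h.top]
  omega

lemma lst_chain {mk : ℕ → Rg} {l : ℕ} {S : Finset ℕ} (h : IsSet mk l S) :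
    ∀ n s, Chain s (lst mk l n s) (s + l * n)
  | 0, s => by
    show s = s + l * 0
    simp
  | n + 1, s => by
    refine ⟨h.bot s, ?_, ?_⟩
    · rw [h.bot, h.top]
      omega
    · rw [h.top]
      have := lst_chain h n (s + l)
      have e : s + l + l * n = s + l * (n + 1) := by ring
      rwa [e] at this

/-- **A list of regions against one composite region.** -/
theorem comp_count {S : Finset ℕ} {l B : ℕ} (hS : ∀ s ∈ S, s < 2 ^ l) (hm : Mult l B S S)
    {mk : ℕ → Rg} (hmk : IsSet mk l S) : ∀ (n s : ℕ) (h : Hash) (κ ν : ℕ),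
    ((Vs (lst mk l n s) ×ˢ comp S l n).filter (fun q =>
      val (lst mk l n s) h q.1 + 2 ^ s * ((q.2 + κ) % 2 ^ (l * n)) ≡ ν
        [MOD 2 ^ (s + l * n)])).card ≤ B ^ n := by
  intro n
  induction n with
  | zero =>
    intro s h κ ν
    refine (Finset.card_filter_le _ _).trans ?_
    rw [Finset.card_product]
    show ({[]} : Finset (List ℕ)).card * ({0} : Finset ℕ).card ≤ B ^ 0
    simp
  | succ n ih =>
    intro s h κ ν
    classical
    set F := (Vs (lst mk l (n + 1) s) ×ˢ comp S l (n + 1)).filter (fun q =>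
      val (lst mk l (n + 1) s) h q.1 + 2 ^ s * ((q.2 + κ) % 2 ^ (l * (n + 1))) ≡ ν
        [MOD 2 ^ (s + l * (n + 1))]) with hF
    have hpos : 0 < 2 ^ l := by positivity
    -- the elements of `F`
    have hmem : ∀ q ∈ F, ∃ z0 ∈ S, ∃ z ∈ Vs (lst mk l n (s + l)), ∃ x0 ∈ S, ∃ x ∈ comp S l n,
        q = (z0 :: z, x0 + 2 ^ l * x) ∧
        2 ^ s * ((z0 + h []) % 2 ^ l) + 2 ^ s * ((x0 + κ) % 2 ^ l) +
          (val (lst mk l n (s + l)) ((mk s).next h z0) z +
            2 ^ (s + l) * ((x + (x0 + κ) / 2 ^ l) % 2 ^ (l * n))) ≡ ν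
          [MOD 2 ^ (s + l * (n + 1))] := by
      intro q hq
      rw [hF, Finset.mem_filter, Finset.mem_product] at hq
      obtain ⟨⟨h1, h2⟩, h3⟩ := hq
      obtain ⟨z0, z, he, hz0, hz⟩ := mem_Vs_cons.mp h1
      obtain ⟨p, hp, he2⟩ := Finset.mem_image.mp (show q.2 ∈ (S ×ˢ comp S l n).image
        (fun q => q.1 + 2 ^ l * q.2) from h2)
      obtain ⟨hp1, hp2⟩ := Finset.mem_product.mp hp
      rw [hmk.V] at hz0
      refine ⟨z0, hz0, z, hz, p.1, hp1, p.2, hp2, Prod.ext he he2.symm, ?_⟩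
      have e1 : val (lst mk l (n + 1) s) h q.1 = 2 ^ s * ((z0 + h []) % 2 ^ l) +
          val (lst mk l n (s + l)) ((mk s).next h z0) z := by
        rw [he]
        show 2 ^ (mk s).bot * (((mk s).c z0 + h []) % 2 ^ (mk s).len) + _ = _
        rw [hmk.bot, hmk.c, hmk.len]
      have e2 : (q.2 + κ) % 2 ^ (l * (n + 1)) = (p.1 + κ) % 2 ^ l +
          2 ^ l * ((p.2 + (p.1 + κ) / 2 ^ l) % 2 ^ (l * n)) := by
        rw [← he2]
        have := add_pow_mul_mod (p.1 + κ) p.2 l (l * n)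
        rw [show l + l * n = l * (n + 1) by ring] at this
        rw [← this]
        congr 1
        ring
      rw [e1, e2] at h3
      refine Nat.ModEq.trans ?_ h3
      rw [pow_add]
      exact congrArg (fun t => t % _) (by ring)
    -- the first pair
    obtain ⟨ν', hν'⟩ := exists_modEq_shift (h [] + κ) (ν / 2 ^ s) (2 ^ l) hpos
    set G := (S ×ˢ S).filter (fun p => (p.1 + p.2) % 2 ^ l = ν' % 2 ^ l) with hG
    have hmap : ∀ q ∈ F, (q.1.headD 0, q.2 % 2 ^ l) ∈ G := by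
      intro q hq
      obtain ⟨z0, hz0, z, hz, x0, hx0, x, hx, rfl, he⟩ := hmem q hq
      have e1 : (x0 + 2 ^ l * x) % 2 ^ l = x0 := by
        rw [Nat.add_mul_mod_self_left, Nat.mod_eq_of_lt (hS x0 hx0)]
      show (z0, (x0 + 2 ^ l * x) % 2 ^ l) ∈ G
      rw [e1, hG, Finset.mem_filter, Finset.mem_product]
      refine ⟨⟨hz0, hx0⟩, ?_⟩
      apply hν'
      have h4 : 2 ^ s * ((z0 + h []) % 2 ^ l) + 2 ^ s * ((x0 + κ) % 2 ^ l) ≡ ν
          [MOD 2 ^ (s + l)] := by
        refine Nat.ModEq.trans ?_ (he.of_dvd (pow_dvd_pow 2 (by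
          have : l * 1 ≤ l * (n + 1) := Nat.mul_le_mul_left _ (by omega)
          omega)))
        have hd : 2 ^ (s + l) ∣ val (lst mk l n (s + l)) ((mk s).next h z0) z +
            2 ^ (s + l) * ((x + (x0 + κ) / 2 ^ l) % 2 ^ (l * n)) :=
          dvd_add ((lst_chain hmk n (s + l)).above.dvd) (Dvd.intro _ rfl)
        have := (Nat.modEq_zero_iff_dvd.mpr hd).symm.add_left
          (2 ^ s * ((z0 + h []) % 2 ^ l) + 2 ^ s * ((x0 + κ) % 2 ^ l))
        rwa [add_zero] at this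
      have h5 := modEq_sub_of_mul h4
      refine Nat.ModEq.trans ?_ h5
      exact congrArg (fun t => t % _) (by ring)
    have hfib : ∀ p ∈ G, (F.filter (fun q => (q.1.headD 0, q.2 % 2 ^ l) = p)).card ≤ B ^ n := by
      intro p hp
      obtain ⟨hp1, hp2⟩ := Finset.mem_filter.mp hp
      obtain ⟨hp3, hp4⟩ := Finset.mem_product.mp hp1
      obtain ⟨ν'', hν''⟩ := exists_modEq_shift
        (2 ^ s * ((p.1 + h []) % 2 ^ l) + 2 ^ s * ((p.2 + κ) % 2 ^ l)) ν
        (2 ^ (s + l * (n + 1))) (by positivity)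
      refine le_trans ?_ (ih (s + l) ((mk s).next h p.1) ((p.2 + κ) / 2 ^ l) ν'')
      apply Finset.card_le_card_of_injOn (fun q => (q.1.tail, q.2 / 2 ^ l))
      · intro q hq
        obtain ⟨hq1, hq2⟩ := Finset.mem_filter.mp (Finset.mem_coe.mp hq)
        obtain ⟨z0, hz0, z, hz, x0, hx0, x, hx, rfl, he⟩ := hmem q hq1
        have e1 : (x0 + 2 ^ l * x) % 2 ^ l = x0 := by
          rw [Nat.add_mul_mod_self_left, Nat.mod_eq_of_lt (hS x0 hx0)]
        have e2 : (x0 + 2 ^ l * x) / 2 ^ l = x := by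
          rw [Nat.add_mul_div_left _ _ hpos, Nat.div_eq_of_lt (hS x0 hx0), zero_add]
        have e3 : z0 = p.1 := congrArg Prod.fst hq2
        have e4 : x0 = p.2 := by
          have := congrArg Prod.snd hq2
          simp only at this
          rw [← this, e1]
        show (z, (x0 + 2 ^ l * x) / 2 ^ l) ∈ _
        rw [e2, Finset.mem_coe, Finset.mem_filter, Finset.mem_product]
        refine ⟨⟨hz, hx⟩, ?_⟩
        rw [e3, e4] at he
        have h6 := hν'' _ he
        rw [show s + l * (n + 1) = s + l + l * n by ring] at h6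
        exact h6
      · intro q hq q' hq' hqq
        obtain ⟨hq1, hq2⟩ := Finset.mem_filter.mp (Finset.mem_coe.mp hq)
        obtain ⟨hq1', hq2'⟩ := Finset.mem_filter.mp (Finset.mem_coe.mp hq')
        obtain ⟨z0, hz0, z, hz, x0, hx0, x, hx, rfl, -⟩ := hmem q hq1
        obtain ⟨y0, hy0, y, hy, w0, hw0, w, hw, rfl, -⟩ := hmem q' hq1'
        have a1 := congrArg Prod.fst (hq2.trans hq2'.symm)
        have a2 := congrArg Prod.snd (hq2.trans hq2'.symm)
        have a3 := congrArg Prod.fst hqq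
        have a4 := congrArg Prod.snd hqq
        simp only [List.headD_cons, List.tail_cons] at a1 a2 a3 a4
        have c1 := Nat.div_add_mod (x0 + 2 ^ l * x) (2 ^ l)
        have c2 := Nat.div_add_mod (w0 + 2 ^ l * w) (2 ^ l)
        refine Prod.ext ?_ ?_
        · show z0 :: z = y0 :: y
          rw [a1, a3]
        · show x0 + 2 ^ l * x = w0 + 2 ^ l * w
          rw [← c1, ← c2, a2, a4]
    have hc := Finset.card_le_mul_card_image_of_maps_to hmap (B ^ n) hfib
    calc F.card ≤ B ^ n * G.card := hc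
      _ ≤ B ^ n * B := Nat.mul_le_mul_left _ (hm _)
      _ = B ^ (n + 1) := by ring

/-- **A list of regions against one composite region.** -/
theorem NB_comp {S : Finset ℕ} {l B : ℕ} (hS : ∀ s ∈ S, s < 2 ^ l) (hm : Mult l B S S)
    {mk : ℕ → Rg} (hmk : IsSet mk l S) (n s : ℕ) {r : Rg} (hbot : r.bot = s)
    (htop : r.top = s + l * n) (hV : r.V = comp S l n) (hc : ∀ z, r.c z = z) :
    NB (lst mk l n s) [r] (s + l * n) (B ^ n) := by
  intro h h' ν
  have hlen : r.len = l * n := by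
    unfold Rg.len
    rw [hbot, htop]
    omega
  refine le_trans ?_ (comp_count hS hm hmk n s h (h' []) ν)
  apply Finset.card_le_card_of_injOn (fun q => (q.1, q.2.headD 0))
  · intro q hq
    obtain ⟨⟨h1, h2⟩, h3⟩ := mem_Sol.mp (Finset.mem_coe.mp hq)
    obtain ⟨x, hx, hxV⟩ := mem_Vs_single.mp h2
    rw [hx, val_single, hbot, hc, hlen] at h3
    show (q.1, q.2.headD 0) ∈ _
    rw [hx, Finset.mem_coe, Finset.mem_filter, Finset.mem_product]
    rw [hV] at hxV
    exact ⟨⟨h1, hxV⟩, h3⟩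
  · intro q hq q' hq' he
    obtain ⟨⟨h1, h2⟩, -⟩ := mem_Sol.mp (Finset.mem_coe.mp hq)
    obtain ⟨⟨h1', h2'⟩, -⟩ := mem_Sol.mp (Finset.mem_coe.mp hq')
    obtain ⟨x, hx, -⟩ := mem_Vs_single.mp h2
    obtain ⟨x', hx', -⟩ := mem_Vs_single.mp h2'
    have a1 := congrArg Prod.fst he
    have a2 := congrArg Prod.snd he
    simp only [hx, hx', List.headD_cons] at a1 a2
    refine Prod.ext a1 ?_
    rw [hx, hx', a2]

/-- a list of regions against itself -/
theorem NB_lst {S : Finset ℕ} {l B : ℕ} {mk : ℕ → Rg} (hmk : IsSet mk l S)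
    (h : ∀ s, PBr (mk s) (mk s) B) :
    ∀ n s, NB (lst mk l n s) (lst mk l n s) (s + l * n) (B ^ n)
  | 0, s => by
    simpa [lst] using (NB_nil (v := s + l * 0))
  | n + 1, s => by
    have ih := NB_lst hmk h n (s + l)
    have h1 : NB [mk s] [mk s] (mk s).top B := NB_single rfl rfl (by
      rw [hmk.bot, hmk.top]
      omega) (h s)
    rw [hmk.top] at h1
    have h2 := NB.append h1 ih (by omega) (lst_chain hmk n (s + l)).above
      (lst_chain hmk n (s + l)).above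
    rw [show s + l + l * n = s + l * (n + 1) by ring] at h2
    have e : B ^ (n + 1) = B * B ^ n := by ring
    rw [e]
    exact h2

/-! ### single regions whose content is a shifted element of a set -/

/-- the contents are `φ z + κ`, `φ z` different elements of `S` -/
structure Shf (r : Rg) (L : ℕ) (S : Finset ℕ) (φ : ℕ → ℕ) (κ : ℕ) : Prop where
  len : r.len = L
  inj : ∀ z ∈ r.V, ∀ z' ∈ r.V, φ z = φ z' → z = z'
  mem : ∀ z ∈ r.V, φ z ∈ S
  c : ∀ z ∈ r.V, r.c z ≡ φ z + κ [MOD 2 ^ L]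

section

variable {r r' : Rg} {L B : ℕ} {S S' T : Finset ℕ} {φ φ' : ℕ → ℕ} {κ κ' : ℕ}

/-- the residue of the sum of the two elements -/
lemma Shf.sum (h : Shf r L S φ κ) (h' : Shf r' L S' φ' κ') (ν : ℕ) : ∃ ν₁ < 2 ^ L,
    ∀ q ∈ (r.V ×ˢ r'.V).filter (fun q => r.c q.1 + r'.c q.2 ≡ ν [MOD 2 ^ r.len]),
      (φ q.1 + φ' q.2) % 2 ^ L = ν₁ := by
  obtain ⟨ν', hν'⟩ := exists_modEq_shift (κ + κ') ν (2 ^ L) (by positivity)
  refine ⟨ν' % 2 ^ L, Nat.mod_lt _ (by positivity), ?_⟩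
  intro q hq
  obtain ⟨h1, h2⟩ := Finset.mem_filter.mp hq
  obtain ⟨h3, h4⟩ := Finset.mem_product.mp h1
  rw [h.len] at h2
  apply hν'
  refine Nat.ModEq.trans ?_ h2
  have e1 := (h.c q.1 h3).add (h'.c q.2 h4)
  refine Nat.ModEq.trans ?_ e1.symm
  exact congrArg (fun t => t % _) (by ring)

/-- pair bound from the multiplicity of the sets -/
theorem PBr_shf (h : Shf r L S φ κ) (h' : Shf r' L S' φ' κ') (hm : Mult L B S S') :
    PBr r r' B := by
  intro ν
  obtain ⟨ν₁, -, hν₁⟩ := h.sum h' ν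
  refine le_trans ?_ (hm ν₁)
  apply Finset.card_le_card_of_injOn (fun q => (φ q.1, φ' q.2))
  · intro q hq
    have h0 := hν₁ q (Finset.mem_coe.mp hq)
    obtain ⟨h1, -⟩ := Finset.mem_filter.mp (Finset.mem_coe.mp hq)
    obtain ⟨h3, h4⟩ := Finset.mem_product.mp h1
    show (φ q.1, φ' q.2) ∈ _
    rw [Finset.mem_coe, Finset.mem_filter, Finset.mem_product]
    exact ⟨⟨h.mem _ h3, h'.mem _ h4⟩, h0⟩
  · intro q hq q' hq' he
    obtain ⟨h1, -⟩ := Finset.mem_filter.mp (Finset.mem_coe.mp hq)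
    obtain ⟨h3, h4⟩ := Finset.mem_product.mp h1
    obtain ⟨h1', -⟩ := Finset.mem_filter.mp (Finset.mem_coe.mp hq')
    obtain ⟨h3', h4'⟩ := Finset.mem_product.mp h1'
    exact Prod.ext (h.inj _ h3 _ h3' (congrArg Prod.fst he))
      (h'.inj _ h4 _ h4' (congrArg Prod.snd he))

/-- one block: the list is the intersection of `T` with a translate of `-S'` -/
theorem PBw_shfL (h : Shf r L T φ κ) (hb : ∀ z ∈ r.V, r.blk z = φ z) (h' : Shf r' L S' φ' κ')
    (hb' : ∀ z, r'.blk z = 0) (hT : ∀ t ∈ T, t < 2 ^ L) (hS' : ∀ s ∈ S', s < 2 ^ L)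
    {Q : Set (Finset ℕ)} (hQ : ∀ ν < 2 ^ L, neg L S' ν ∈ Q) : PBw (famL T Q) r r' 1 := by
  classical
  intro ν w D hw
  obtain ⟨ν₁, hlt, hν₁⟩ := h.sum h' ν
  set F := (r.V ×ˢ r'.V).filter (fun q => r.c q.1 + r'.c q.2 ≡ ν [MOD 2 ^ r.len]) with hF
  have hinj : Set.InjOn (fun q : ℕ × ℕ => (φ q.1, (0 : ℕ))) F := by
    intro q hq q' hq' he
    have hq := Finset.mem_coe.mp hq
    have hq' := Finset.mem_coe.mp hq'
    obtain ⟨h1, -⟩ := Finset.mem_filter.mp hq
    obtain ⟨h3, h4⟩ := Finset.mem_product.mp h1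
    obtain ⟨h1', -⟩ := Finset.mem_filter.mp hq'
    obtain ⟨h3', h4'⟩ := Finset.mem_product.mp h1'
    have e1 : φ q.1 = φ q'.1 := congrArg Prod.fst he
    have e2 := hν₁ q hq
    have e3 := hν₁ q' hq'
    rw [e1] at e2
    have e4 : φ q'.1 + φ' q.2 ≡ φ q'.1 + φ' q'.2 [MOD 2 ^ L] := by
      rw [Nat.ModEq, e2, e3]
    have e5 := Nat.ModEq.eq_of_lt_of_lt (Nat.ModEq.add_left_cancel' _ e4)
      (hS' _ (h'.mem _ h4)) (hS' _ (h'.mem _ h4'))
    exact Prod.ext (h.inj _ h3 _ h3' e1) (h'.inj _ h4 _ h4' e5)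
  have h1 : ∑ p ∈ (T ∩ neg L S' ν₁) ×ˢ ({0} : Finset ℕ), w p ≤ D :=
    hw _ ⟨neg L S' ν₁, hQ _ hlt, rfl⟩
  calc ∑ q ∈ F, w (r.blk q.1, r'.blk q.2) = ∑ q ∈ F, w (φ q.1, 0) := by
        refine Finset.sum_congr rfl (fun q hq => ?_)
        obtain ⟨h3, -⟩ := Finset.mem_product.mp (Finset.mem_filter.mp hq).1
        rw [hb _ h3, hb']
    _ = ∑ p ∈ F.image (fun q : ℕ × ℕ => (φ q.1, (0 : ℕ))), w p := by
        rw [Finset.sum_image hinj]
    _ ≤ ∑ p ∈ (T ∩ neg L S' ν₁) ×ˢ ({0} : Finset ℕ), w p := by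
        refine Finset.sum_le_sum_of_subset ?_
        intro p hp
        obtain ⟨q, hq, rfl⟩ := Finset.mem_image.mp hp
        obtain ⟨h3, h4⟩ := Finset.mem_product.mp (Finset.mem_filter.mp hq).1
        rw [Finset.mem_product, Finset.mem_inter]
        refine ⟨⟨h.mem _ h3, mem_neg.mpr ⟨hT _ (h.mem _ h3), φ' q.2, h'.mem _ h4, ?_⟩⟩,
          Finset.mem_singleton_self 0⟩
        exact hν₁ q hq
    _ ≤ D := h1
    _ ≤ 1 * lc D := by
        rw [one_mul]
        exact le_lc D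

/-- both blocks -/
theorem PBw_shfB (h : Shf r L T φ κ) (hb : ∀ z ∈ r.V, r.blk z = φ z) (h' : Shf r' L T φ' κ')
    (hb' : ∀ z ∈ r'.V, r'.blk z = φ' z) : PBw (famB T L) r r' 1 := by
  classical
  intro ν w D hw
  obtain ⟨ν₁, hlt, hν₁⟩ := h.sum h' ν
  set F := (r.V ×ˢ r'.V).filter (fun q => r.c q.1 + r'.c q.2 ≡ ν [MOD 2 ^ r.len]) with hF
  have hinj : Set.InjOn (fun q : ℕ × ℕ => (φ q.1, φ' q.2)) F := by
    intro q hq q' hq' he
    obtain ⟨h1, -⟩ := Finset.mem_filter.mp (Finset.mem_coe.mp hq)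
    obtain ⟨h3, h4⟩ := Finset.mem_product.mp h1
    obtain ⟨h1', -⟩ := Finset.mem_filter.mp (Finset.mem_coe.mp hq')
    obtain ⟨h3', h4'⟩ := Finset.mem_product.mp h1'
    exact Prod.ext (h.inj _ h3 _ h3' (congrArg Prod.fst he))
      (h'.inj _ h4 _ h4' (congrArg Prod.snd he))
  have h1 : ∑ p ∈ (T ×ˢ T).filter (fun p => p.1 + p.2 ≡ ν₁ [MOD 2 ^ L]), w p ≤ D :=
    hw _ ⟨ν₁, rfl⟩
  calc ∑ q ∈ F, w (r.blk q.1, r'.blk q.2) = ∑ q ∈ F, w (φ q.1, φ' q.2) := by
        refine Finset.sum_congr rfl (fun q hq => ?_)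
        obtain ⟨h3, h4⟩ := Finset.mem_product.mp (Finset.mem_filter.mp hq).1
        rw [hb _ h3, hb' _ h4]
    _ = ∑ p ∈ F.image (fun q : ℕ × ℕ => (φ q.1, φ' q.2)), w p := by
        rw [Finset.sum_image hinj]
    _ ≤ ∑ p ∈ (T ×ˢ T).filter (fun p => p.1 + p.2 ≡ ν₁ [MOD 2 ^ L]), w p := by
        refine Finset.sum_le_sum_of_subset ?_
        intro p hp
        obtain ⟨q, hq, rfl⟩ := Finset.mem_image.mp hp
        obtain ⟨h3, h4⟩ := Finset.mem_product.mp (Finset.mem_filter.mp hq).1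
        rw [Finset.mem_filter, Finset.mem_product]
        refine ⟨⟨h.mem _ h3, h'.mem _ h4⟩, ?_⟩
        show (φ q.1 + φ' q.2) % 2 ^ L = ν₁ % 2 ^ L
        rw [hν₁ q hq, Nat.mod_eq_of_lt hlt]
    _ ≤ D := h1
    _ ≤ 1 * lc D := by
        rw [one_mul]
        exact le_lc D

end

lemma Shf_set (s L : ℕ) (S : Finset ℕ) : Shf (setRg s L S) L S (fun z => z) 0 where
  len := by
    show s + L - s = L
    omega
  inj := fun _ _ _ _ h => h
  mem := fun _ h => h
  c := fun _ _ => rfl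

lemma Shf_blk (s L : ℕ) (S : Finset ℕ) : Shf (blkRg s L S) L S (fun z => z) 0 where
  len := by
    show s + L - s = L
    omega
  inj := fun _ _ _ _ h => h
  mem := fun _ h => h
  c := fun _ _ => rfl

lemma Shf_cell (s L : ℕ) (S : Finset ℕ) : Shf (cellRg s L S) L S (fun z => z) 0 where
  len := by
    show s + L - s = L
    omega
  inj := fun _ _ _ _ h => h
  mem := fun _ h => h
  c := fun _ _ => rfl

open Pool.Agent.ETS (Codes Reg pairs mem_pairs)

/-- a pair whose first component is unique -/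
lemma unpair_inj {C : Codes} (hY : (C.Y 0).card ≤ 1) {A : Finset ℕ} {z z' : ℕ}
    (hz : z ∈ pairs (C.Y 0) A) (hz' : z' ∈ pairs (C.Y 0) A)
    (h : (Nat.unpair z).2 = (Nat.unpair z').2) : z = z' := by
  have h1 := (mem_pairs.mp hz).1
  have h2 := (mem_pairs.mp hz').1
  have h3 := Finset.card_le_one.mp hY _ h1 _ h2
  rw [← Nat.pair_unpair z, ← Nat.pair_unpair z', h3, h]

lemma exists_Shf_RT {C : Codes} (hY : (C.Y 0).card ≤ 1) (e b : ℕ) :
    ∃ κ, Shf (rgOf C (Reg.RT e b (b + C.W e))) (C.W e) (C.T e) (fun z => (Nat.unpair z).2) κ := by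
  have hV : (rgOf C (Reg.RT e b (b + C.W e))).V = pairs (C.Y 0) (C.T e) := by
    show pairs (C.Y (b + C.W e - b - C.W e)) (C.T e) = _
    rw [show b + C.W e - b - C.W e = 0 by omega]
  have hlen : (rgOf C (Reg.RT e b (b + C.W e))).len = C.W e := by
    show b + C.W e - b = C.W e
    omega
  rcases (C.Y 0).eq_empty_or_nonempty with h0 | ⟨y, hy⟩
  · refine ⟨0, hlen, ?_, ?_, ?_⟩
    · intro z hz
      rw [hV] at hz
      exact absurd (mem_pairs.mp hz).1 (by rw [h0]; simp)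
    · intro z hz
      rw [hV] at hz
      exact absurd (mem_pairs.mp hz).1 (by rw [h0]; simp)
    · intro z hz
      rw [hV] at hz
      exact absurd (mem_pairs.mp hz).1 (by rw [h0]; simp)
  · refine ⟨C.E (C.W e) y, hlen, ?_, ?_, ?_⟩
    · intro z hz z' hz' h
      rw [hV] at hz hz'
      exact unpair_inj hY hz hz' h
    · intro z hz
      rw [hV] at hz
      exact (mem_pairs.mp hz).2
    · intro z hz
      rw [hV] at hz
      have h1 := Finset.card_le_one.mp hY _ (mem_pairs.mp hz).1 _ hy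
      show C.E (b + C.W e - b) (Nat.unpair z).1 + (Nat.unpair z).2 ≡ _ [MOD _]
      rw [h1, show b + C.W e - b = C.W e by omega, add_comm]

lemma exists_Shf_RTh {C : Codes} (hY : (C.Y 0).card ≤ 1) (e b : ℕ) :
    ∃ κ, Shf (rgOf C (Reg.RTh e b (b + C.W e))) (C.W e) (C.Th e) (fun z => (Nat.unpair z).2)
      κ := by
  have hV : (rgOf C (Reg.RTh e b (b + C.W e))).V = pairs (C.Y 0) (C.Th e) := by
    show pairs (C.Y (b + C.W e - b - C.W e)) (C.Th e) = _
    rw [show b + C.W e - b - C.W e = 0 by omega]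
  have hlen : (rgOf C (Reg.RTh e b (b + C.W e))).len = C.W e := by
    show b + C.W e - b = C.W e
    omega
  rcases (C.Y 0).eq_empty_or_nonempty with h0 | ⟨y, hy⟩
  · refine ⟨0, hlen, ?_, ?_, ?_⟩
    · intro z hz
      rw [hV] at hz
      exact absurd (mem_pairs.mp hz).1 (by rw [h0]; simp)
    · intro z hz
      rw [hV] at hz
      exact absurd (mem_pairs.mp hz).1 (by rw [h0]; simp)
    · intro z hz
      rw [hV] at hz
      exact absurd (mem_pairs.mp hz).1 (by rw [h0]; simp)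
  · refine ⟨C.E (C.W e) y, hlen, ?_, ?_, ?_⟩
    · intro z hz z' hz' h
      rw [hV] at hz hz'
      exact unpair_inj hY hz hz' h
    · intro z hz
      rw [hV] at hz
      exact (mem_pairs.mp hz).2
    · intro z hz
      rw [hV] at hz
      have h1 := Finset.card_le_one.mp hY _ (mem_pairs.mp hz).1 _ hy
      show C.E (b + C.W e - b) (Nat.unpair z).1 + (Nat.unpair z).2 ≡ _ [MOD _]
      rw [h1, show b + C.W e - b = C.W e by omega, add_comm]

end Pool.Agent.E2
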