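import Pool.Agent.Helper83.E2.NearTop
import Pool.Agent.Helper16.E2.Codes
import Pool.Agent.Helper29.E2.Sizes

/-!
# The near lemma for the top zone: units and mid blocks in action
-/

namespace Pool.Agent.E2

open Finset
open Pool.Agent.ETS (Hash Codes Reg)
open Pool.Agent.ETS.RC (Mult)
open Pool.Agent.Helper83.E2 (neg mem_neg cat cat_lt mult_cat comp_eq_cat mk2 Fam1 Fam2 SdOK
  loc1 loc2 C1s C2s LocH Loc2 n1 loc1_okH loc2_ok hh_pos)
open Pool.Agent.Helper29.ETK (CC kk)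
open Pool.Agent.Helper29.E2 (ep Wd Hd Ld hh ll)

/-- the family of lists for the stages `j`, `j'` -/
def famJ (T : Finset ℕ) (L : ℕ) (Q : Set (Finset ℕ)) (j j' : ℕ) : Set (Finset (ℕ × ℕ)) :=
  if j = 2 then (if j' = 2 then famB T L else famL T Q) else
    (if j' = 2 then famR T Q else fam0)

/-- the regions of the four stages of a block `[s, s + l * n)` -/
structure Stages (l n s : ℕ) (S T Th : Finset ℕ) (Q : Set (Finset ℕ)) (μ : ℕ) (mk : ℕ → Rg)
    (rC rT rTh : Rg) : Prop where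
  one : 1 ≤ n
  mu : 1 ≤ μ
  base : IsSet mk l S
  noBlk : ∀ s z, (mk s).blk z = 0
  S_lt : ∀ x ∈ S, x < 2 ^ l
  T_lt : ∀ x ∈ T, x < 2 ^ (l * n)
  Th_lt : ∀ x ∈ Th, x < 2 ^ (l * n)
  SS : Mult l μ S S
  ThTh : Mult (l * n) μ Th Th
  QTh : ∀ ν < 2 ^ (l * n), neg (l * n) Th ν ∈ Q
  QC : ∀ ν < 2 ^ (l * n), neg (l * n) (comp S l n) ν ∈ Q
  C_bot : rC.bot = s
  C_top : rC.top = s + l * n
  C_V : rC.V = comp S l n
  C_c : ∀ z, rC.c z = z
  C_blk : ∀ z, rC.blk z = 0
  T_bot : rT.bot = s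
  T_top : rT.top = s + l * n
  T_shf : ∃ φ κ, Shf rT (l * n) T φ κ ∧ ∀ z ∈ rT.V, rT.blk z = φ z
  Th_bot : rTh.bot = s
  Th_top : rTh.top = s + l * n
  Th_shf : ∃ φ κ, Shf rTh (l * n) Th φ κ
  Th_blk : ∀ z, rTh.blk z = 0

/-- the regions of the stage `j` -/
def stg (l n s : ℕ) (mk : ℕ → Rg) (rC rT rTh : Rg) (j : ℕ) : List Rg :=
  if j = 0 then lst mk l n s else if j = 1 then [rC] else if j = 2 then [rT] else [rTh]

namespace Stages

variable {l n s μ : ℕ} {S T Th : Finset ℕ} {Q : Set (Finset ℕ)} {mk : ℕ → Rg} {rC rT rTh : Rg}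

lemma le_pow (h : Stages l n s S T Th Q μ mk rC rT rTh) : μ ≤ μ ^ n := by
  calc μ = μ ^ 1 := (pow_one μ).symm
    _ ≤ μ ^ n := Nat.pow_le_pow_right h.mu h.one

lemma one_le_pow (h : Stages l n s S T Th Q μ mk rC rT rTh) : 1 ≤ μ ^ n :=
  h.mu.trans h.le_pow

lemma C_shf (h : Stages l n s S T Th Q μ mk rC rT rTh) :
    Shf rC (l * n) (comp S l n) (fun z => z) 0 where
  len := by
    unfold Rg.len
    rw [h.C_bot, h.C_top]
    omega
  inj := fun _ _ _ _ h => h
  mem := fun z hz => by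
    rw [h.C_V] at hz
    exact hz
  c := fun z _ => by
    rw [h.C_c]
    rfl

lemma C_lt (h : Stages l n s S T Th Q μ mk rC rT rTh) : ∀ x ∈ comp S l n, x < 2 ^ (l * n) := by
  rw [comp_eq_cat]
  exact cat_lt h.S_lt n

lemma CC (h : Stages l n s S T Th Q μ mk rC rT rTh) :
    Mult (l * n) (μ ^ n) (comp S l n) (comp S l n) := by
  rw [comp_eq_cat]
  exact mult_cat h.S_lt h.S_lt h.SS n

lemma noBlk_lst (h : Stages l n s S T Th Q μ mk rC rT rTh) : ∀ m u, NoBlk (lst mk l m u)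
  | 0, _ => NoBlk_nil
  | m + 1, u => by
    intro r hr z
    rcases List.mem_cons.mp hr with rfl | hr
    · exact h.noBlk u z
    · exact h.noBlk_lst m (u + l) r hr z

lemma noBlk_single {r : Rg} (h : ∀ z, r.blk z = 0) : NoBlk [r] := by
  intro x hx z
  rw [List.mem_singleton] at hx
  rw [hx]
  exact h z

/-- **The near bound for the stages.** -/
theorem near (h : Stages l n s S T Th Q μ mk rC rT rTh) {j j' : ℕ} (hj : j ≤ 3) (hj' : j' ≤ 3)
    (hadj : j = j' ∨ j = j' + 1 ∨ j' = j + 1) :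
    NBw (famJ T (l * n) Q j j') (stg l n s mk rC rT rTh j) (stg l n s mk rC rT rTh j')
      (s + l * n) (μ ^ n) := by
  have hp := h.le_pow
  have h1 := h.one_le_pow
  have hC := h.C_shf
  obtain ⟨φT, κT, hT, hTb⟩ := h.T_shf
  obtain ⟨φ, κ, hTh⟩ := h.Th_shf
  have tC : rC.bot ≤ rC.top := by rw [h.C_bot, h.C_top]; omega
  have tT : rT.bot ≤ rT.top := by rw [h.T_bot, h.T_top]; omega
  have tTh : rTh.bot ≤ rTh.top := by rw [h.Th_bot, h.Th_top]; omega
  -- the pairs
  have p00 : NBw fam0 (lst mk l n s) (lst mk l n s) (s + l * n) (μ ^ n) :=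
    (NB_lst h.base (fun u => PBr_shf (S := S) (S' := S) (φ := fun z => z) (φ' := fun z => z)
      (κ := 0) (κ' := 0) ⟨h.base.len u, fun _ _ _ _ h => h, fun z hz => by
        rw [h.base.V] at hz
        exact hz, fun z _ => by
        rw [h.base.c]
        rfl⟩ ⟨h.base.len u, fun _ _ _ _ h => h, fun z hz => by
        rw [h.base.V] at hz
        exact hz, fun z _ => by
        rw [h.base.c]
        rfl⟩ h.SS) n s).toNBw (h.noBlk_lst n s) (h.noBlk_lst n s) mem_fam0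
  have p01 : NB (lst mk l n s) [rC] (s + l * n) (μ ^ n) :=
    NB_comp h.S_lt h.SS h.base n s h.C_bot h.C_top h.C_V h.C_c
  have p11 : NB [rC] [rC] (s + l * n) (μ ^ n) := by
    have := NB_single rfl rfl tC (PBr_shf hC hC h.CC)
    rwa [h.C_top] at this
  have p33 : NB [rTh] [rTh] (s + l * n) (μ ^ n) := by
    have := NB_single rfl rfl tTh ((PBr_shf hTh hTh h.ThTh).mono hp)
    rwa [h.Th_top] at this
  have p22 : NBw (famB T (l * n)) [rT] [rT] (s + l * n) (μ ^ n) := by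
    have := NBw_single rfl rfl tT ((PBw_shfB hT hTb hT hTb).mono h1)
    rwa [h.T_top] at this
  have p21 : NBw (famL T Q) [rT] [rC] (s + l * n) (μ ^ n) := by
    have := NBw_single (h.T_bot.trans h.C_bot.symm) (h.T_top.trans h.C_top.symm) tT
      ((PBw_shfL hT hTb hC h.C_blk h.T_lt h.C_lt h.QC).mono h1)
    rwa [h.T_top] at this
  have p23 : NBw (famL T Q) [rT] [rTh] (s + l * n) (μ ^ n) := by
    have := NBw_single (h.T_bot.trans h.Th_bot.symm) (h.T_top.trans h.Th_top.symm) tT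
      ((PBw_shfL hT hTb hTh h.Th_blk h.T_lt h.Th_lt h.QTh).mono h1)
    rwa [h.T_top] at this
  have nC := noBlk_single h.C_blk
  have nTh := noBlk_single h.Th_blk
  have nB := h.noBlk_lst n s
  have hcase : (j = 0 ∨ j = 1 ∨ j = 2 ∨ j = 3) ∧ (j' = 0 ∨ j' = 1 ∨ j' = 2 ∨ j' = 3) := by
    omega
  obtain ⟨h2 | h2 | h2 | h2, h3 | h3 | h3 | h3⟩ := hcase <;> subst h2 <;> subst h3 <;>
    simp only [stg, famJ] <;> norm_num
  · exact p00
  · exact p01.toNBw nB nC mem_fam0
  · omega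
  · omega
  · exact p01.symm.toNBw nC nB mem_fam0
  · exact p11.toNBw nC nC mem_fam0
  · exact p21.symm.mono_fam (swapF_famL T Q)
  · omega
  · omega
  · exact p21
  · exact p22
  · exact p23
  · omega
  · omega
  · exact p23.symm.mono_fam (swapF_famL T Q)
  · exact p33.toNBw nTh nTh mem_fam0

/-- the stages are chains -/
theorem chain (h : Stages l n s S T Th Q μ mk rC rT rTh) (j : ℕ) :
    Chain s (stg l n s mk rC rT rTh j) (s + l * n) := by
  unfold stg
  split_ifs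
  · exact lst_chain h.base n s
  · exact ⟨h.C_bot, by rw [h.C_bot, h.C_top]; omega, h.C_top⟩
  · exact ⟨h.T_bot, by rw [h.T_bot, h.T_top]; omega, h.T_top⟩
  · exact ⟨h.Th_bot, by rw [h.Th_bot, h.Th_top]; omega, h.Th_top⟩

end Stages

/-! ### the lists of the layouts -/

lemma mids_eq (D : Codes2) (e H : ℕ) (hH : D.H e = H) : ∀ n b,
    (mids e H n b).map (Reg2.rg D) = lst (fun s => Reg2.rg D (.mid e s)) H n b
  | 0, _ => rfl
  | n + 1, b => by
    show Reg2.rg D (.mid e b) :: (mids e H n (b + H)).map (Reg2.rg D) = _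
    rw [mids_eq D e H hH n (b + H)]
    rfl

lemma cells_eq (D : Codes2) (l : ℕ) : ∀ n s,
    (cells l n s).map (Reg2.rg D) = lst (fun s => Reg2.rg D (.cell l s)) l n s
  | 0, _ => rfl
  | n + 1, s => by
    show Reg2.rg D (.cell l s) :: (cells l n (s + l)).map (Reg2.rg D) = _
    rw [cells_eq D l n (s + l)]
    rfl

lemma unitRegs_eq (D : Codes2) (c b j : ℕ) (hH : D.H (ep c b) = Hd c b) :
    (unitRegs c b j).map (Reg2.rg D) = stg (Hd c b) (Wd c b / Hd c b) b
      (fun s => Reg2.rg D (.mid (ep c b) s)) (Reg2.rg D (.C2 (ep c b) b))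
      (rgOf D.toCodes (Reg.RT (ep c b) b (b + Wd c b)))
      (rgOf D.toCodes (Reg.RTh (ep c b) b (b + Wd c b))) j := by
  unfold unitRegs stg
  split_ifs
  · exact mids_eq D _ _ hH _ _
  · rfl
  · rfl
  · rfl

lemma blockRegs_eq (D : Codes2) (c f j : ℕ) :
    (blockRegs c f j).map (Reg2.rg D) = stg (Ld c f) (Hd c f / Ld c f) f
      (fun s => Reg2.rg D (.cell (Ld c f) s)) (Reg2.rg D (.C1 (ep c f) f))
      (Reg2.rg D (.T1 (ep c f) f)) (Reg2.rg D (.mid (ep c f) f)) j := by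
  unfold blockRegs stg
  split_ifs
  · exact cells_eq D _ _ _
  · rfl
  · rfl
  · rfl

lemma mids_ts (e H : ℕ) : ∀ n b, NoTL (mids e H n b)
  | 0, _ => fun r hr => by simp [mids] at hr
  | n + 1, b => by
    intro r hr
    rcases List.mem_cons.mp hr with rfl | hr
    · rfl
    · exact mids_ts e H n (b + H) r hr

lemma cells_ts (l : ℕ) : ∀ n s, NoTL (cells l n s)
  | 0, _ => fun r hr => by simp [cells] at hr
  | n + 1, s => by
    intro r hr
    rcases List.mem_cons.mp hr with rfl | hr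
    · rfl
    · exact cells_ts l n (s + l) r hr

lemma unitRegs_tsL (c b j : ℕ) : tsL (unitRegs c b j) = if j = 2 then .W (ep c b) else .none := by
  unfold unitRegs
  split_ifs with h0 h2 h1 h2' h2''
  · omega
  · exact (mids_ts _ _ _ _).tsL
  · omega
  · rfl
  · rfl
  · rfl

lemma blockRegs_tsL (c f j : ℕ) :
    tsL (blockRegs c f j) = if j = 2 then .H (ep c f) else .none := by
  unfold blockRegs
  split_ifs with h0 h2 h1 h2' h2''
  · omega
  · exact (cells_ts _ _ _).tsL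
  · omega
  · rfl
  · rfl
  · rfl

lemma LF_unit (D : Codes2) (QW QH : ℕ → Set (Finset ℕ)) (c b j j' : ℕ) :
    LF D QW QH (tsL (unitRegs c b j)) (tsL (unitRegs c b j')) =
      famJ (D.T (ep c b)) (D.W (ep c b)) (QW (ep c b)) j j' := by
  rw [unitRegs_tsL, unitRegs_tsL]
  unfold famJ
  split_ifs <;> rfl

lemma LF_block (D : Codes2) (QW QH : ℕ → Set (Finset ℕ)) (c f j j' : ℕ) :
    LF D QW QH (tsL (blockRegs c f j)) (tsL (blockRegs c f j')) =
      famJ (D.T1 (ep c f)) (D.H (ep c f)) (QH (ep c f)) j j' := by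
  rw [blockRegs_tsL, blockRegs_tsL]
  unfold famJ
  split_ifs <;> rfl

end Pool.Agent.E2
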